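import Pool.Agent.H756.TD.Rank
import Pool.Graph.R_pool_sql_team_seeded_63374d34.N569.OD.Blk

set_option autoImplicit false

/-!
The coefficients of the blocks of the state sum in the extreme degree.
-/

namespace Pool.Agent.H756.TD

open Finset LaurentPolynomial Pool.Agent.H891R2.Jones Pool.Agent.H891R2.MT Pool.Agent.H891R2.DS
open Pool.Agent.H891R2.MT.T4b
open Pool.Agent.H891R2.DS.D8 (curves_bridges sum_split curves_pos)
open Pool.Agent.H891R2.DS.D10 (coeff_mul_T coeff_d_pow)
open Pool.Agent.N569.OD (coeff_sum' coeff_neg_one_pow_mul)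

variable {k : ℕ}

/-- the edges of `M` which are bridges of `F ∪ M` -/
noncomputable def BB (G : Ribbon k) (M F : Finset (Fin k)) : Finset (Fin k) :=
  M.filter (fun e => G.comps ((F ∪ M).erase e) = G.comps (F ∪ M) + 1)

/-- the edges of `M` which are not bridges of `F ∪ M` -/
noncomputable def JJ (G : Ribbon k) (M F : Finset (Fin k)) : Finset (Fin k) := M \ BB G M F

theorem BB_sub (G : Ribbon k) (M F : Finset (Fin k)) : BB G M F ⊆ M := filter_subset _ _

theorem JJ_sub (G : Ribbon k) (M F : Finset (Fin k)) : JJ G M F ⊆ M := sdiff_subset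

theorem card_BJ (G : Ribbon k) (M F : Finset (Fin k)) :
    M.card = (JJ G M F).card + (BB G M F).card := by
  unfold JJ
  rw [card_sdiff_of_subset (BB_sub G M F)]
  have := card_le_card (BB_sub G M F)
  omega

theorem JJ_inter (G : Ribbon k) (M F : Finset (Fin k)) (hFM : Disjoint F M) :
    (F ∪ JJ G M F) ∩ M = JJ G M F := by
  ext x
  simp only [mem_inter, mem_union]
  constructor
  · rintro ⟨h | h, hR⟩
    · exact absurd hR (disjoint_left.mp hFM h)
    · exact h
  · intro h
    exact ⟨Or.inr h, JJ_sub G M F h⟩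

theorem mem_JJ (G : Ribbon k) (M F : Finset (Fin k)) (e : Fin k) :
    e ∈ JJ G M F ↔ e ∈ M ∧ G.comps ((F ∪ M).erase e) = G.comps (F ∪ M) := by
  unfold JJ BB
  rw [mem_sdiff, mem_filter, not_and]
  constructor
  · rintro ⟨h1, h2⟩
    refine ⟨h1, ?_⟩
    have h3 := T3a.comps_erase G (F ∪ M) e (mem_union_right _ h1)
    have := h2 h1
    omega
  · rintro ⟨h1, h2⟩
    exact ⟨h1, fun _ => by omega⟩

theorem JJ_nonbridge (G : Ribbon k) (M F : Finset (Fin k)) (hFM : Disjoint F M) :
    ∀ e ∈ JJ G M F, G.comps ((F ∪ JJ G M F).erase e) = G.comps (F ∪ JJ G M F) := by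
  classical
  intro e he
  set H := F ∪ M with hH
  set B := BB G M F with hB
  set J := JJ G M F with hJ
  have hJB : J = M \ B := rfl
  have hBM : B ⊆ M := BB_sub G M F
  have hBH : B ⊆ H := hBM.trans subset_union_right
  have hBbr : ∀ e ∈ B, G.comps (H.erase e) = G.comps H + 1 := fun e he => (mem_filter.mp he).2
  have hdis : Disjoint (F ∪ J) B := by
    rw [disjoint_union_left]
    exact ⟨disjoint_of_subset_right hBM hFM, sdiff_disjoint⟩
  have bridges_union := Pool.Agent.H891R2.CA.C6.bridges_union G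
  have heB : e ∉ B := (mem_sdiff.mp he).2
  have h3 : G.comps (H.erase e) = G.comps H := ((mem_JJ G M F e).1 he).2
  have hunion : F ∪ J ∪ B = H := by
    rw [union_assoc, hJB, sdiff_union_of_subset hBM]
  have h6 := bridges_union H B (F ∪ J) hBH hBbr
    (union_subset_union le_rfl sdiff_subset) hdis
  rw [hunion] at h6
  have h7 := bridges_union H B ((F ∪ J).erase e) hBH hBbr
    ((erase_subset _ _).trans (union_subset_union le_rfl sdiff_subset))
    (disjoint_of_subset_left (erase_subset _ _) hdis)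
  have h8 : (F ∪ J).erase e ∪ B = H.erase e := by
    ext x
    by_cases hxe : x = e
    · subst hxe
      simp [heB]
    · have : x ∈ F ∪ J ∪ B ↔ x ∈ H := by rw [hunion]
      simp only [mem_union, mem_erase] at this ⊢
      tauto
  rw [h8, h3, ← h6] at h7
  exact h7

/-- the block as a sum over the subsets of `JJ` -/
theorem blk_expand (G : Ribbon k) (hk : 0 < k) (M F : Finset (Fin k)) (hFM : Disjoint F M) :
    (∀ Q ⊆ JJ G M F, (BB G M F).card + 1 ≤ G.curves (F ∪ Q)) ∧
    blk G M F = ∑ Q ∈ (JJ G M F).powerset, T (2 * F.card - 2 * Q.card) *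
      ((-1) ^ (BB G M F).card * T (2 * (BB G M F).card) *
        (-T 2 - T (-2)) ^ (G.curves (F ∪ Q) - 1 - (BB G M F).card)) := by
  classical
  have binomial := Pool.Agent.H891R2.CA.C7.binomial (k := k)
  set H := F ∪ M with hH
  set B := BB G M F with hB
  set J := JJ G M F with hJ
  have hJB : J = M \ B := rfl
  have hBM : B ⊆ M := BB_sub G M F
  have hBH : B ⊆ H := hBM.trans subset_union_right
  have hBbr : ∀ e ∈ B, G.comps (H.erase e) = G.comps H + 1 := fun e he => (mem_filter.mp he).2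
  have hdis : ∀ Q' ⊆ J, Disjoint (F ∪ Q') B := by
    intro Q' hQ'
    rw [disjoint_union_left]
    exact ⟨disjoint_of_subset_right hBM hFM, disjoint_of_subset_left hQ' sdiff_disjoint⟩
  have hcurv : ∀ Q' ⊆ J, ∀ Q'' ⊆ B,
      G.curves (F ∪ Q') = G.curves (F ∪ (Q' ∪ Q'')) + Q''.card := by
    intro Q' hQ' Q'' hQ''
    rw [← union_assoc]
    exact curves_bridges G (curves_bridge G) H Q'' (F ∪ Q') (hQ''.trans hBH)
      (fun e he => hBbr e (hQ'' he))
      (union_subset_union le_rfl (hQ'.trans sdiff_subset))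
      (disjoint_of_subset_right hQ'' (hdis Q' hQ'))
  have hx : ∀ Q' ⊆ J, B.card + 1 ≤ G.curves (F ∪ Q') := by
    intro Q' hQ'
    have h1 := hcurv Q' hQ' B le_rfl
    have h2 := curves_pos G hk (F ∪ (Q' ∪ B))
    omega
  refine ⟨hx, ?_⟩
  unfold blk
  rw [sum_split M B hBM]
  apply Finset.sum_congr rfl
  intro Q' hQ'
  rw [mem_powerset] at hQ'
  have hx' := hx Q' hQ'
  rw [← binomial B _ (by omega), mul_sum]
  apply Finset.sum_congr rfl
  intro Q'' hQ''
  rw [mem_powerset] at hQ''
  have h1 := hcurv Q' hQ' Q'' hQ''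
  have h3 : G.curves (F ∪ (Q' ∪ Q'')) - 1 = G.curves (F ∪ Q') - 1 - Q''.card := by omega
  have h4 : (Q' ∪ Q'').card = Q'.card + Q''.card :=
    card_union_of_disjoint (disjoint_of_subset_right hQ''
      (disjoint_of_subset_left hQ' sdiff_disjoint))
  rw [h3, ← mul_assoc, ← T_add, h4]
  congr 2
  push_cast; ring

/-- the terms of a block -/
theorem term_coeff (a : ℤ) (b n : ℕ) (j : ℤ) :
    (T a * ((-1) ^ b * T (2 * b) * (-T 2 - T (-2)) ^ n) : ℤ[T;T⁻¹]).coeff j =
      (-1) ^ b * ((-T 2 - T (-2) : ℤ[T;T⁻¹]) ^ n).coeff (j - a - 2 * b) := by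
  have e : (T a * ((-1) ^ b * T (2 * b) * (-T 2 - T (-2)) ^ n) : ℤ[T;T⁻¹]) =
      (-1) ^ b * ((-T 2 - T (-2)) ^ n * T (2 * b) * T a) := by ring
  rw [e, coeff_neg_one_pow_mul, coeff_mul_T, coeff_mul_T]

theorem d_pow_low (n : ℕ) (j : ℤ) (h : j < -(2 * n)) :
    ((-T 2 - T (-2) : ℤ[T;T⁻¹]) ^ n).coeff j = 0 := by
  by_contra hcon
  have := (T4b.SIn_d.pow n j hcon).1
  omega

/-- the coefficients of a block in the extreme degree -/
theorem blk_coeff (G : Ribbon k) (hk : 0 < k) (M F : Finset (Fin k)) (hFM : Disjoint F M)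
    (hr : G.comps (F ∪ JJ G M F) + 2 * (JJ G M F).card ≤ G.verts) :
    GE (blk G M F) (4 * M.card - 2 * G.verts + 2) ∧
    (G.comps (F ∪ JJ G M F) + 2 * (JJ G M F).card < G.verts →
      (blk G M F).coeff (4 * M.card - 2 * G.verts + 2) = 0) ∧
    (G.comps (F ∪ JJ G M F) + 2 * (JJ G M F).card = G.verts →
      G.curves (F ∪ JJ G M F) + G.verts =
        F.card + (JJ G M F).card + 2 * G.comps (F ∪ JJ G M F) →
      (blk G M F).coeff (4 * M.card - 2 * G.verts + 2) =
        (-1) ^ (G.verts + 1) * (-1) ^ (F.card + (JJ G M F).card)) := by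
  classical
  obtain ⟨hcp, hexp⟩ := blk_expand G hk M F hFM
  have hBJ := card_BJ G M F
  set B := BB G M F with hB
  set J := JJ G M F with hJ
  have hJM : J ⊆ M := JJ_sub G M F
  have hcardU : ∀ Q ⊆ M, (F ∪ Q).card = F.card + Q.card := fun Q hQ =>
    card_union_of_disjoint (disjoint_of_subset_right hQ hFM)
  have hcl : ∀ Q ⊆ J, (G.curves (F ∪ Q) : ℤ) ≤ F.card + Q.card - G.verts + 2 * G.comps (F ∪ Q) := by
    intro Q hQ
    have h1 := curves_le G (F ∪ Q)
    rw [hcardU Q (hQ.trans hJM)] at h1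
    push_cast at h1
    linarith
  have hmono : ∀ Q ⊆ J, G.comps (F ∪ Q) + Q.card ≤ G.comps (F ∪ J) + J.card := by
    intro Q hQ
    have h3 := T3a.mono G (F ∪ J).card (F ∪ Q) (F ∪ J) (by omega) (union_subset_union le_rfl hQ)
    rw [hcardU Q (hQ.trans hJM), hcardU J hJM] at h3
    omega
  have hstrict : ∀ Q ⊆ J, Q ≠ J → G.comps (F ∪ Q) + Q.card + 1 ≤ G.comps (F ∪ J) + J.card := by
    intro Q hQ hQJ
    obtain ⟨e, heJ, heQ⟩ : ∃ e ∈ J, e ∉ Q := by
      by_contra hcon
      push Not at hcon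
      exact hQJ (subset_antisymm hQ hcon)
    have h1 : G.comps ((F ∪ J).erase e) = G.comps (F ∪ J) := JJ_nonbridge G M F hFM e heJ
    have heF : e ∉ F := fun hh => disjoint_left.1 hFM hh (hJM heJ)
    have hsub : F ∪ Q ⊆ (F ∪ J).erase e := by
      intro x hx
      rw [mem_erase]
      refine ⟨?_, union_subset_union le_rfl hQ hx⟩
      rintro rfl
      rcases mem_union.1 hx with hh | hh
      · exact heF hh
      · exact heQ hh
    have h3 := T3a.mono G ((F ∪ J).erase e).card (F ∪ Q) ((F ∪ J).erase e) (by omega) hsub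
    rw [hcardU Q (hQ.trans hJM), card_erase_of_mem (mem_union_right _ heJ), hcardU J hJM, h1] at h3
    have : 0 < J.card := card_pos.2 ⟨e, heJ⟩
    omega
  have hterm : ∀ Q ⊆ J, ((G.curves (F ∪ Q) - 1 - B.card : ℕ) : ℤ) = G.curves (F ∪ Q) - 1 - B.card := by
    intro Q hQ
    have := hcp Q hQ
    omega
  refine ⟨?_, ?_, ?_⟩
  · intro j hj
    by_contra hcon
    push Not at hcon
    apply hj
    rw [hexp, coeff_sum']
    apply sum_eq_zero
    intro Q hQ
    rw [mem_powerset] at hQ
    rw [term_coeff, d_pow_low, mul_zero]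
    have h1 := hcl Q hQ
    have h2 := hmono Q hQ
    rw [hterm Q hQ]
    omega
  · intro hlt
    rw [hexp, coeff_sum']
    apply sum_eq_zero
    intro Q hQ
    rw [mem_powerset] at hQ
    rw [term_coeff, d_pow_low, mul_zero]
    have h1 := hcl Q hQ
    have h2 := hmono Q hQ
    rw [hterm Q hQ]
    omega
  · intro heq hcurv
    rw [hexp, coeff_sum', sum_eq_single J]
    · rw [term_coeff]
      have h1 := hterm J subset_rfl
      have h2 : (4 * (M.card : ℤ) - 2 * G.verts + 2 - (2 * F.card - 2 * J.card) - 2 * B.card) =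
          -(2 * ((G.curves (F ∪ J) - 1 - B.card : ℕ) : ℤ)) := by
        rw [h1]
        omega
      rw [h2, coeff_d_pow, ← pow_add, ← pow_add]
      have h3 := hcp J subset_rfl
      have h4 : B.card + (G.curves (F ∪ J) - 1 - B.card) = G.curves (F ∪ J) - 1 := by omega
      rw [h4]
      rcases Nat.even_or_odd (G.curves (F ∪ J) - 1) with hev | hodd
      · rw [hev.neg_one_pow, Even.neg_one_pow]
        rw [Nat.even_iff] at hev ⊢
        omega
      · rw [hodd.neg_one_pow, Odd.neg_one_pow]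
        rw [Nat.odd_iff] at hodd ⊢
        omega
    · intro Q hQ hQJ
      rw [mem_powerset] at hQ
      rw [term_coeff, d_pow_low, mul_zero]
      have h1 := hcl Q hQ
      have h2 := hstrict Q hQ hQJ
      rw [hterm Q hQ]
      omega
    · intro hcon
      exact absurd (mem_powerset.2 subset_rfl) hcon

end Pool.Agent.H756.TD
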