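import Pool.Graph.R_pool_sql_team_seeded_63374d34.N569.OD.Second

set_option autoImplicit false

/-!
Even sets of edges of a ribbon graph and the closure operator of its cycle matroid.
-/

namespace Pool.Agent.H756.TD

open Finset LaurentPolynomial Pool.Agent.H891R2.Jones Pool.Agent.H891R2.MT Pool.Agent.H891R2.DS
open Pool.Agent.N569.OD (Vert vtx ends)

variable {k : ℕ}

noncomputable instance instFintypeVert (G : Ribbon k) : Fintype (Vert G) :=
  @Fintype.ofFinite _ (Finite.of_surjective (Quot.mk _) Quot.mk_surjective)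

open Classical in
/-- the parity of the number of the ends of the edge `e` at the vertex `v` -/
noncomputable def par (G : Ribbon k) (e : Fin k) (v : Vert G) : ZMod 2 :=
  (if vtx G (e, false) = v then 1 else 0) + (if vtx G (e, true) = v then 1 else 0)

theorem vtx_eq_iff (G : Ribbon k) (d d' : Fin k × Bool) :
    vtx G d = vtx G d' ↔ G.rot.SameCycle d d' := T2.mk_eq_iff _ _ _

theorem even_iff (G : Ribbon k) (X : Finset (Fin k)) :
    EvenSet G X ↔ ∀ v, ∑ e ∈ X, par G e v = 0 := by
  classical
  have key : ∀ d : Fin k × Bool,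
      (({d' : Fin k × Bool | G.rot.SameCycle d d' ∧ d'.1 ∈ X}.ncard : ℕ) : ZMod 2) =
        ∑ e ∈ X, par G e (vtx G d) := by
    intro d
    have h1 : {d' : Fin k × Bool | G.rot.SameCycle d d' ∧ d'.1 ∈ X} =
        (((X ×ˢ (univ : Finset Bool)).filter (fun d' => vtx G d' = vtx G d) :
          Finset (Fin k × Bool)) : Set (Fin k × Bool)) := by
      ext x
      simp only [Set.mem_ofPred_eq, coe_filter, mem_product, mem_univ, and_true]
      rw [vtx_eq_iff, Equiv.Perm.sameCycle_comm]
      exact and_comm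
    rw [h1, Set.ncard_coe_finset, card_filter, Nat.cast_sum, sum_product]
    apply sum_congr rfl
    intro e _
    unfold par
    rw [Fintype.sum_bool]
    push_cast
    rw [add_comm]
  constructor
  · intro h v
    obtain ⟨d, rfl⟩ : ∃ d, vtx G d = v := Quot.exists_rep v
    rw [← key]
    exact (ZMod.natCast_eq_zero_iff_even).mpr (h d)
  · intro h d
    have := h (vtx G d)
    rw [← key] at this
    exact (ZMod.natCast_eq_zero_iff_even).mp this

theorem sum_symmDiff (f : Fin k → ZMod 2) (X Y : Finset (Fin k)) :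
    ∑ e ∈ symmDiff X Y, f e = ∑ e ∈ X, f e + ∑ e ∈ Y, f e := by
  have h1 : ∑ e ∈ X \ Y, f e + ∑ e ∈ X ∩ Y, f e = ∑ e ∈ X, f e := by
    rw [add_comm]
    exact Finset.sum_inter_add_sum_sdiff X Y f
  have h2 : ∑ e ∈ Y \ X, f e + ∑ e ∈ X ∩ Y, f e = ∑ e ∈ Y, f e := by
    rw [add_comm, inter_comm]
    exact Finset.sum_inter_add_sum_sdiff Y X f
  have h3 : symmDiff X Y = (X \ Y) ∪ (Y \ X) := rfl
  rw [h3, sum_union (disjoint_of_subset_right sdiff_subset sdiff_disjoint)]
  rw [← h1, ← h2]
  have h4 : ∑ e ∈ X ∩ Y, f e + ∑ e ∈ X ∩ Y, f e = 0 := CharTwo.add_self_eq_zero _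
  calc _ = (∑ e ∈ X \ Y, f e + ∑ e ∈ Y \ X, f e) + 0 := by ring
    _ = _ := by rw [← h4]; ring

theorem even_empty (G : Ribbon k) : EvenSet G ∅ := by
  rw [even_iff]; intro v; simp

theorem even_symmDiff {G : Ribbon k} {X Y : Finset (Fin k)} (hX : EvenSet G X) (hY : EvenSet G Y) :
    EvenSet G (symmDiff X Y) := by
  rw [even_iff] at *
  intro v
  rw [sum_symmDiff, hX v, hY v, add_zero]

/-- if `e` closes a cycle with `X` then it lies in an even set -/
theorem exists_even (G : Ribbon k) (X : Finset (Fin k)) (e : Fin k) (he : e ∉ X)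
    (h : G.comps (insert e X) = G.comps X) :
    ∃ Z, EvenSet G Z ∧ e ∈ Z ∧ Z ⊆ insert e X := by
  classical
  have h1 : Quot.mk (T3a.rel G X) (e, false) = Quot.mk (T3a.rel G X) (e, true) := by
    rcases T3a.comps_insert G X e with ⟨h1, _⟩ | ⟨_, h1⟩
    · exact h1
    · omega
  have key : ∀ u v, Relation.EqvGen (T3a.rel G X) u v → ∃ P ⊆ X, ∀ z, ∑ e ∈ P, par G e z =
      (if vtx G u = z then 1 else 0) + (if vtx G v = z then 1 else 0) := by
    intro u v huv
    induction huv with
    | rel x y hxy =>
      rcases hxy with hxy | ⟨hx, rfl⟩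
      · refine ⟨∅, empty_subset _, fun z => ?_⟩
        have : vtx G x = vtx G y := Quot.sound hxy
        rw [sum_empty, this]
        exact (CharTwo.add_self_eq_zero _).symm
      · refine ⟨{x.1}, singleton_subset_iff.2 hx, fun z => ?_⟩
        rw [sum_singleton]
        obtain ⟨x1, x2⟩ := x
        cases x2
        · rfl
        · unfold par
          exact add_comm _ _
    | refl x => exact ⟨∅, empty_subset _, fun z => by
        rw [sum_empty]; exact (CharTwo.add_self_eq_zero _).symm⟩
    | symm x y _ ih =>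
      obtain ⟨P, hP, hz⟩ := ih
      exact ⟨P, hP, fun z => by rw [hz z, add_comm]⟩
    | trans x y w _ _ ih1 ih2 =>
      obtain ⟨P, hP, hz⟩ := ih1
      obtain ⟨P', hP', hz'⟩ := ih2
      refine ⟨symmDiff P P', ?_, fun z => ?_⟩
      · intro a ha
        rw [mem_symmDiff] at ha
        rcases ha with ha | ha
        · exact hP ha.1
        · exact hP' ha.1
      · rw [sum_symmDiff, hz z, hz' z]
        have h4 : (if vtx G y = z then (1 : ZMod 2) else 0) + (if vtx G y = z then 1 else 0) = 0 :=
          CharTwo.add_self_eq_zero _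
        calc _ = (if vtx G x = z then (1 : ZMod 2) else 0) + (if vtx G w = z then 1 else 0) +
            ((if vtx G y = z then (1 : ZMod 2) else 0) + (if vtx G y = z then 1 else 0)) := by ring
          _ = _ := by rw [h4, add_zero]
  obtain ⟨P, hP, hz⟩ := key _ _ (Quot.eqvGen_exact h1)
  refine ⟨insert e P, ?_, mem_insert_self _ _, insert_subset_insert _ hP⟩
  rw [even_iff]
  intro v
  rw [sum_insert (fun h => he (hP h)), hz v]
  unfold par
  exact CharTwo.add_self_eq_zero _

/-- an edge of an even set closes a cycle with the other edges -/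
theorem mk_of_even (G : Ribbon k) (Z : Finset (Fin k)) (hZ : EvenSet G Z) (e : Fin k) (he : e ∈ Z)
    (X : Finset (Fin k)) (hX : Z.erase e ⊆ X) :
    Quot.mk (T3a.rel G X) (e, false) = Quot.mk (T3a.rel G X) (e, true) := by
  classical
  rw [even_iff] at hZ
  let q : Vert G → Quot (T3a.rel G X) :=
    Quot.lift (Quot.mk (T3a.rel G X)) (fun _ _ h => Quot.sound (Or.inl h))
  have hq : ∀ d, q (vtx G d) = Quot.mk (T3a.rel G X) d := fun d => rfl
  let χ : Vert G → ZMod 2 := fun z => if q z = Quot.mk (T3a.rel G X) (e, false) then 1 else 0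
  have hpar : ∀ f, ∑ z, χ z * par G f z = χ (vtx G (f, false)) + χ (vtx G (f, true)) := by
    intro f
    unfold par
    simp_rw [mul_add, mul_ite, mul_one, mul_zero]
    rw [sum_add_distrib]
    simp
  have h1 : ∑ z, χ z * ∑ f ∈ Z, par G f z = 0 := by
    apply sum_eq_zero
    intro z _
    rw [hZ z, mul_zero]
  simp_rw [mul_sum] at h1
  rw [sum_comm] at h1
  simp_rw [hpar] at h1
  rw [← add_sum_erase _ _ he] at h1
  have h2 : ∑ f ∈ Z.erase e, (χ (vtx G (f, false)) + χ (vtx G (f, true))) = 0 := by
    apply sum_eq_zero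
    intro f hf
    have : q (vtx G (f, false)) = q (vtx G (f, true)) :=
      Quot.sound (Or.inr ⟨hX hf, rfl⟩)
    show (if _ then (1 : ZMod 2) else 0) + (if _ then 1 else 0) = 0
    rw [this]
    exact CharTwo.add_self_eq_zero _
  rw [h2, add_zero] at h1
  by_contra hne
  have h3 : χ (vtx G (e, false)) = 1 := if_pos rfl
  have h4 : χ (vtx G (e, true)) = 0 := if_neg (fun h => hne h.symm)
  rw [h3, h4, add_zero] at h1
  exact one_ne_zero h1

theorem comps_insert_even (G : Ribbon k) (Z : Finset (Fin k)) (hZ : EvenSet G Z) (e : Fin k)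
    (he : e ∈ Z) (X : Finset (Fin k)) (hX : Z.erase e ⊆ X) :
    G.comps (insert e X) = G.comps X := by
  rcases T3a.comps_insert G X e with ⟨_, h⟩ | ⟨h, _⟩
  · exact h
  · exact absurd (mk_of_even G Z hZ e he X hX) h

/-- edges in the closure of `K` do not change the number of components -/
theorem comps_closure (G : Ribbon k) (K H : Finset (Fin k)) (hK : K ⊆ H)
    (h : ∀ f ∈ H \ K, ∃ Z, EvenSet G Z ∧ f ∈ Z ∧ Z ⊆ insert f K) : G.comps H = G.comps K := by
  classical
  have key : ∀ U : Finset (Fin k), U ⊆ H \ K → G.comps (K ∪ U) = G.comps K := by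
    intro U
    induction U using Finset.induction_on with
    | empty => intro _; rw [union_empty]
    | insert f U hf ih =>
      intro hU
      have h1 := ih (fun x hx => hU (mem_insert_of_mem hx))
      obtain ⟨Z, hZ, hfZ, hZK⟩ := h f (hU (mem_insert_self _ _))
      rw [union_insert, comps_insert_even G Z hZ f hfZ (K ∪ U) ?_, h1]
      intro x hx
      rw [mem_erase] at hx
      have := hZK hx.2
      rw [mem_insert] at this
      exact mem_union_left _ (this.resolve_left hx.1)
  have := key (H \ K) subset_rfl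
  rwa [union_sdiff_of_subset hK] at this

end Pool.Agent.H756.TD
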