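import Pool.Agent.H756.TD.Blk

set_option autoImplicit false

/-!
The sets of edges of extremal rank.
-/

namespace Pool.Agent.H756.TD

open Finset LaurentPolynomial Pool.Agent.H891R2.Jones Pool.Agent.H891R2.MT Pool.Agent.H891R2.DS
open Pool.Agent.N569.OD (Vert vtx ends)

variable {k : ℕ}

/-! ### parallel edges and triangles -/

theorem par_of_ends (G : Ribbon k) {e f : Fin k} (h : ends G e = ends G f) (v : Vert G) :
    par G e v = par G f v := by
  unfold ends at h
  rw [Sym2.eq_iff] at h
  unfold par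
  rcases h with ⟨h1, h2⟩ | ⟨h1, h2⟩
  · rw [h1, h2]
  · rw [h1, h2, add_comm]

theorem even_parallel (G : Ribbon k) {e f : Fin k} (hef : e ≠ f) (h : ends G e = ends G f) :
    EvenSet G {e, f} := by
  rw [even_iff]
  intro v
  rw [sum_pair hef, par_of_ends G h]
  exact CharTwo.add_self_eq_zero _

theorem TDom.no_loop {G : Ribbon k} {M : Finset (Fin k)} (h : TDom G M) (e : Fin k) :
    vtx G (e, false) ≠ vtx G (e, true) := by
  intro hl
  have hE : EvenSet G {e} := by
    rw [even_iff]
    intro v
    rw [sum_singleton]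
    unfold par
    rw [hl]
    exact CharTwo.add_self_eq_zero _
  have h1 := h {e} (singleton_nonempty e) hE
  have h2 : (({e} : Finset (Fin k)) \ M).card ≤ 1 := by
    refine (card_le_card sdiff_subset).trans ?_
    rw [card_singleton]
  omega

theorem TDom.ne_of_ends {G : Ribbon k} {M : Finset (Fin k)} (h : TDom G M) {e : Fin k}
    {u v : Vert G} (he : ends G e = s(u, v)) : u ≠ v := by
  rintro rfl
  unfold ends at he
  rw [Sym2.eq_iff] at he
  have := h.no_loop e
  rcases he with ⟨h1, h2⟩ | ⟨h1, h2⟩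
  · exact this (h1.trans h2.symm)
  · exact this (h1.trans h2.symm)

open Classical in
theorem even_triangle {G : Ribbon k} {M : Finset (Fin k)} (h : TDom G M) {x a b : Fin k}
    {w : Vert G} (hx : x ∈ M) (ha : a ∉ M) (hb : b ∉ M)
    (ha' : ends G a = s(vtx G (x, false), w)) (hb' : ends G b = s(vtx G (x, true), w)) :
    IsTri G M x {x, a, b} := by
  have hab : a ≠ b := by
    rintro rfl
    rw [ha', Sym2.eq_iff] at hb'
    rcases hb' with ⟨h1, _⟩ | ⟨h1, h2⟩
    · exact h.no_loop x h1
    · exact h.no_loop x (h1.trans h2)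
  have hxa : x ≠ a := fun hh => ha (hh ▸ hx)
  have hxb : x ≠ b := fun hh => hb (hh ▸ hx)
  refine ⟨?_, ?_, ?_⟩
  · rw [even_iff]
    intro v
    have hx1 : x ∉ ({a, b} : Finset (Fin k)) := by
      rw [mem_insert, mem_singleton]; tauto
    rw [sum_insert hx1, sum_pair hab]
    have e1 : par G a v = (if vtx G (x, false) = v then 1 else 0) + (if w = v then 1 else 0) := by
      unfold ends at ha'
      rw [Sym2.eq_iff] at ha'
      unfold par
      rcases ha' with ⟨h1, h2⟩ | ⟨h1, h2⟩
      · rw [h1, h2]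
      · rw [h1, h2, add_comm]
    have e2 : par G b v = (if vtx G (x, true) = v then 1 else 0) + (if w = v then 1 else 0) := by
      unfold ends at hb'
      rw [Sym2.eq_iff] at hb'
      unfold par
      rcases hb' with ⟨h1, h2⟩ | ⟨h1, h2⟩
      · rw [h1, h2]
      · rw [h1, h2, add_comm]
    rw [e1, e2]
    unfold par
    have z1 : ∀ t : ZMod 2, t + t = 0 := CharTwo.add_self_eq_zero
    generalize (if vtx G (x, false) = v then (1 : ZMod 2) else 0) = t1
    generalize (if vtx G (x, true) = v then (1 : ZMod 2) else 0) = t2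
    generalize (if w = v then (1 : ZMod 2) else 0) = t3
    calc t1 + t2 + (t1 + t3 + (t2 + t3)) = (t1 + t1) + (t2 + t2) + (t3 + t3) := by ring
      _ = 0 := by rw [z1 t1, z1 t2, z1 t3]; simp
  · ext z
    simp only [mem_inter, mem_insert, mem_singleton]
    constructor
    · rintro ⟨rfl | rfl | rfl, h2⟩
      · rfl
      · exact absurd h2 ha
      · exact absurd h2 hb
    · rintro rfl
      exact ⟨Or.inl rfl, hx⟩
  · have : ({x, a, b} : Finset (Fin k)) \ M = {a, b} := by
      ext z
      simp only [mem_sdiff, mem_insert, mem_singleton]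
      constructor
      · rintro ⟨rfl | rfl | rfl, h2⟩
        · exact absurd hx h2
        · exact Or.inl rfl
        · exact Or.inr rfl
      · rintro (rfl | rfl)
        · exact ⟨Or.inr (Or.inl rfl), ha⟩
        · exact ⟨Or.inr (Or.inr rfl), hb⟩
    rw [this, card_pair hab]

open Classical in
/-- the shape of a triangle -/
theorem IsTri.shape {G : Ribbon k} {M : Finset (Fin k)} (h : TDom G M) {x : Fin k}
    {Z : Finset (Fin k)} (hZ : IsTri G M x Z) : ∃ a b w, a ∉ M ∧ b ∉ M ∧ a ≠ b ∧ Z = {x, a, b} ∧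
      ends G a = s(vtx G (x, false), w) ∧ ends G b = s(vtx G (x, true), w) := by
  obtain ⟨a, b, hab, hZab⟩ := card_eq_two.1 hZ.card
  have ha : a ∈ Z \ M := by rw [hZab]; simp
  have hb : b ∈ Z \ M := by rw [hZab]; simp
  rw [mem_sdiff] at ha hb
  have hxa : x ≠ a := fun hh => ha.2 (hh ▸ hZ.mem.2)
  have hxb : x ≠ b := fun hh => hb.2 (hh ▸ hZ.mem.2)
  have hZe : Z = {x, a, b} := by
    ext z
    simp only [mem_insert, mem_singleton]
    constructor
    · intro hz
      by_cases hzM : z ∈ M
      · exact Or.inl (hZ.eq_of_mem hz hzM)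
      · right
        have : z ∈ Z \ M := mem_sdiff.2 ⟨hz, hzM⟩
        rw [hZab, mem_insert, mem_singleton] at this
        exact this
    · rintro (rfl | rfl | rfl)
      · exact hZ.mem.1
      · exact ha.1
      · exact hb.1
  have hx1 : x ∉ ({a, b} : Finset (Fin k)) := by
    rw [mem_insert, mem_singleton]; tauto
  have hE := hZ.even
  rw [hZe, even_iff] at hE
  have hE' : ∀ v, par G x v + (par G a v + par G b v) = 0 := by
    intro v
    have := hE v
    rwa [sum_insert hx1, sum_pair hab] at this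
  have hx0 := h.no_loop x
  have ha0 := h.no_loop a
  have hb0 := h.no_loop b
  -- no edge outside `M` is parallel to `x`
  have hnp : ∀ c, c ∉ M → ends G c ≠ ends G x := by
    intro c hc hcx
    have hcx' : c ≠ x := fun hh => hc (hh ▸ hZ.mem.2)
    have h1 := h.one ⟨c, mem_insert_self _ _⟩ (even_parallel G hcx' hcx)
    unfold TD.NN at h1
    rw [sum_pair hcx', if_neg hc, if_pos hZ.mem.2] at h1
    norm_num at h1
  have hnpa := hnp a ha.2
  have hnpb := hnp b hb.2
  unfold ends at hnpa hnpb
  rw [ne_eq, Sym2.eq_iff] at hnpa hnpb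
  unfold par at hE'
  have h01 : (1 : ZMod 2) + 0 + (0 + 0 + (0 + 0)) ≠ 0 := by decide
  obtain ⟨p, hp⟩ : ∃ p, p = vtx G (x, false) := ⟨_, rfl⟩
  obtain ⟨q, hq⟩ : ∃ q, q = vtx G (x, true) := ⟨_, rfl⟩
  obtain ⟨a0, ha0'⟩ : ∃ a0, a0 = vtx G (a, false) := ⟨_, rfl⟩
  obtain ⟨a1, ha1'⟩ : ∃ a1, a1 = vtx G (a, true) := ⟨_, rfl⟩
  obtain ⟨b0, hb0'⟩ : ∃ b0, b0 = vtx G (b, false) := ⟨_, rfl⟩
  obtain ⟨b1, hb1'⟩ : ∃ b1, b1 = vtx G (b, true) := ⟨_, rfl⟩
  have hends : (s(a0, a1) = s(p, b0) ∧ s(b0, b1) = s(q, b0)) ∨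
      (s(a0, a1) = s(p, b1) ∧ s(b0, b1) = s(q, b1)) ∨
      (s(a0, a1) = s(q, b0) ∧ s(b0, b1) = s(p, b0)) ∨
      (s(a0, a1) = s(q, b1) ∧ s(b0, b1) = s(p, b1)) := by
    rw [← hp, ← hq, ← ha0', ← ha1', ← hb0', ← hb1'] at hE'
    rw [← hp, ← hq] at hx0
    rw [← ha0', ← ha1'] at ha0
    rw [← hb0', ← hb1'] at hb0
    rw [← hp, ← hq, ← ha0', ← ha1'] at hnpa
    rw [← hp, ← hq, ← hb0', ← hb1'] at hnpb
    have Ep := hE' p
    have Eq' := hE' q
    have Ea0 := hE' a0
    have Ea1 := hE' a1
    simp only [Sym2.eq_iff]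
    by_cases c1 : a0 = p
    · have c2 : a1 ≠ q := fun hh => hnpa (Or.inl ⟨c1, hh⟩)
      have c3 : a1 ≠ p := fun hh => ha0 (c1.trans hh.symm)
      by_cases c4 : b0 = q
      · right; left
        refine ⟨Or.inl ⟨c1, ?_⟩, Or.inl ⟨c4, trivial⟩⟩
        by_contra c5
        have c6 : b0 ≠ a1 := fun hh => c2 (hh ▸ c4)
        rw [if_neg (fun hh => c3 hh.symm), if_neg (fun hh => c2 hh.symm), if_neg ha0, if_pos rfl,
          if_neg c6, if_neg (fun hh => c5 hh.symm)] at Ea1
        exact absurd Ea1 (by decide)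
      · left
        by_cases c5 : b1 = q
        · refine ⟨Or.inl ⟨c1, ?_⟩, Or.inr ⟨trivial, c5⟩⟩
          by_contra c6
          have c7 : b1 ≠ a1 := fun hh => c2 (hh ▸ c5)
          rw [if_neg (fun hh => c3 hh.symm), if_neg (fun hh => c2 hh.symm), if_neg ha0, if_pos rfl,
            if_neg (fun hh => c6 hh.symm), if_neg c7] at Ea1
          exact absurd Ea1 (by decide)
        · exfalso
          have c6 : a0 ≠ q := fun hh => hx0 (c1.symm.trans hh)
          rw [if_neg hx0, if_pos rfl, if_neg c6, if_neg c2, if_neg c4, if_neg c5] at Eq'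
          exact absurd Eq' (by decide)
    · by_cases c2 : a1 = p
      · have c3 : a0 ≠ q := fun hh => hnpa (Or.inr ⟨hh, c2⟩)
        by_cases c4 : b0 = q
        · right; left
          refine ⟨Or.inr ⟨?_, c2⟩, Or.inl ⟨c4, trivial⟩⟩
          by_contra c5
          have c6 : b0 ≠ a0 := fun hh => c3 (hh ▸ c4)
          rw [if_neg (fun hh => c1 hh.symm), if_neg (fun hh => c3 hh.symm), if_pos rfl,
            if_neg (fun hh => ha0 hh.symm), if_neg c6, if_neg (fun hh => c5 hh.symm)] at Ea0
          exact absurd Ea0 (by decide)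
        · left
          by_cases c5 : b1 = q
          · refine ⟨Or.inr ⟨?_, c2⟩, Or.inr ⟨trivial, c5⟩⟩
            by_contra c6
            have c7 : b1 ≠ a0 := fun hh => c3 (hh ▸ c5)
            rw [if_neg (fun hh => c1 hh.symm), if_neg (fun hh => c3 hh.symm), if_pos rfl,
              if_neg (fun hh => ha0 hh.symm), if_neg (fun hh => c6 hh.symm), if_neg c7] at Ea0
            exact absurd Ea0 (by decide)
          · exfalso
            have c6 : a1 ≠ q := fun hh => hx0 (c2.symm.trans hh)
            rw [if_neg hx0, if_pos rfl, if_neg c3, if_neg c6, if_neg c4, if_neg c5] at Eq'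
            exact absurd Eq' (by decide)
      · -- `b` has an end at `p`
        rw [if_pos rfl, if_neg (fun hh => hx0 hh.symm), if_neg c1, if_neg c2] at Ep
        by_cases c4 : b0 = p
        · have c5 : b1 ≠ q := fun hh => hnpb (Or.inl ⟨c4, hh⟩)
          have c6 : b0 ≠ q := fun hh => hx0 (c4.symm.trans hh)
          right; right; right
          rw [if_neg hx0, if_pos rfl, if_neg c6, if_neg c5] at Eq'
          by_cases c7 : a0 = q
          · refine ⟨Or.inl ⟨c7, ?_⟩, Or.inl ⟨c4, trivial⟩⟩
            by_contra c8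
            have c9 : a1 ≠ q := fun hh => ha0 (c7.trans hh.symm)
            have c10 : b0 ≠ a1 := fun hh => c2 (hh.symm.trans c4)
            rw [if_neg (fun hh => c2 hh.symm), if_neg (fun hh => c9 hh.symm), if_neg ha0, if_pos rfl,
              if_neg c10, if_neg (fun hh => c8 hh.symm)] at Ea1
            exact absurd Ea1 (by decide)
          · by_cases c8 : a1 = q
            · refine ⟨Or.inr ⟨?_, c8⟩, Or.inl ⟨c4, trivial⟩⟩
              by_contra c9
              have c10 : b0 ≠ a0 := fun hh => c1 (hh.symm.trans c4)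
              rw [if_neg (fun hh => c1 hh.symm), if_neg (fun hh => c7 hh.symm), if_pos rfl,
                if_neg (fun hh => ha0 hh.symm), if_neg c10, if_neg (fun hh => c9 hh.symm)] at Ea0
              exact absurd Ea0 (by decide)
            · exfalso
              rw [if_neg c7, if_neg c8] at Eq'
              exact absurd Eq' (by decide)
        · by_cases c5 : b1 = p
          · have c6 : b0 ≠ q := fun hh => hnpb (Or.inr ⟨hh, c5⟩)
            have c7 : b1 ≠ q := fun hh => hx0 (c5.symm.trans hh)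
            right; right; left
            rw [if_neg hx0, if_pos rfl, if_neg c6, if_neg c7] at Eq'
            by_cases c8 : a0 = q
            · refine ⟨Or.inl ⟨c8, ?_⟩, Or.inr ⟨trivial, c5⟩⟩
              by_contra c9
              have c10 : a1 ≠ q := fun hh => ha0 (c8.trans hh.symm)
              have c11 : b1 ≠ a1 := fun hh => c2 (hh.symm.trans c5)
              rw [if_neg (fun hh => c2 hh.symm), if_neg (fun hh => c10 hh.symm), if_neg ha0,
                if_pos rfl, if_neg (fun hh => c9 hh.symm), if_neg c11] at Ea1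
              exact absurd Ea1 (by decide)
            · by_cases c9 : a1 = q
              · refine ⟨Or.inr ⟨?_, c9⟩, Or.inr ⟨trivial, c5⟩⟩
                by_contra c10
                have c11 : b1 ≠ a0 := fun hh => c1 (hh.symm.trans c5)
                rw [if_neg (fun hh => c1 hh.symm), if_neg (fun hh => c8 hh.symm), if_pos rfl,
                  if_neg (fun hh => ha0 hh.symm), if_neg (fun hh => c10 hh.symm), if_neg c11] at Ea0
                exact absurd Ea0 (by decide)
              · exfalso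
                rw [if_neg c8, if_neg c9] at Eq'
                exact absurd Eq' (by decide)
          · exfalso
            rw [if_neg c4, if_neg c5] at Ep
            exact absurd Ep (by decide)
  have hea : ends G a = s(a0, a1) := by rw [ha0', ha1']; rfl
  have heb : ends G b = s(b0, b1) := by rw [hb0', hb1']; rfl
  rw [← hp, ← hq]
  rcases hends with ⟨h1, h2⟩ | ⟨h1, h2⟩ | ⟨h1, h2⟩ | ⟨h1, h2⟩
  · exact ⟨a, b, b0, ha.2, hb.2, hab, hZe, hea.trans h1, heb.trans h2⟩
  · exact ⟨a, b, b1, ha.2, hb.2, hab, hZe, hea.trans h1, heb.trans h2⟩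
  · refine ⟨b, a, b0, hb.2, ha.2, hab.symm, ?_, heb.trans h2, hea.trans h1⟩
    rw [hZe]
    congr 1
    exact pair_comm a b
  · refine ⟨b, a, b1, hb.2, ha.2, hab.symm, ?_, heb.trans h2, hea.trans h1⟩
    rw [hZe]
    congr 1
    exact pair_comm a b

end Pool.Agent.H756.TD
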