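import Pool.Agent.H756.TD.Good

set_option autoImplicit false

/-!
The sets of edges of extremal rank: decomposition into the parts at the exceptional edges.
-/

namespace Pool.Agent.H756.TD

open Finset LaurentPolynomial Pool.Agent.H891R2.Jones Pool.Agent.H891R2.MT Pool.Agent.H891R2.DS
open Pool.Agent.N569.OD (Vert vtx ends)

variable {k : ℕ}

open Classical in
/-- the edges outside `M` in the triangles at `x` -/
noncomputable def UU (G : Ribbon k) (M : Finset (Fin k)) (x : Fin k) : Finset (Fin k) :=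
  (Mᶜ).filter (fun a => ∃ Z, IsTri G M x Z ∧ a ∈ Z)

theorem mem_UU {G : Ribbon k} {M : Finset (Fin k)} {x a : Fin k} :
    a ∈ UU G M x ↔ a ∉ M ∧ ∃ Z, IsTri G M x Z ∧ a ∈ Z := by
  classical
  simp only [UU, mem_filter, mem_compl]

theorem UU_disj {G : Ribbon k} {M : Finset (Fin k)} (h : TDom G M) {x y a : Fin k}
    (hx : a ∈ UU G M x) (hy : a ∈ UU G M y) : x = y := by
  by_contra hne
  obtain ⟨_, Z, hZ, haZ⟩ := mem_UU.1 hx
  obtain ⟨_, Z', hZ', haZ'⟩ := mem_UU.1 hy
  exact disjoint_left.1 (tri_disj h hZ hZ' hne) haZ haZ'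

/-- a union of two nonempty sets of edges which join the two ends of `x` with one vertex `w` -/
def GoodE (G : Ribbon k) (x : Fin k) (Y : Finset (Fin k)) : Prop :=
  ∃ w, (∃ a ∈ Y, ends G a = s(vtx G (x, false), w)) ∧ (∃ b ∈ Y, ends G b = s(vtx G (x, true), w)) ∧
    ∀ e ∈ Y, ends G e = s(vtx G (x, false), w) ∨ ends G e = s(vtx G (x, true), w)

theorem GoodE.ne_empty {G : Ribbon k} {x : Fin k} {Y : Finset (Fin k)} (h : GoodE G x Y) : Y ≠ ∅ := by
  obtain ⟨w, ⟨a, ha, _⟩, _⟩ := h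
  exact ne_empty_of_mem ha

theorem parallel_in_tri {G : Ribbon k} {M : Finset (Fin k)} (h : TDom G M) {x a b e : Fin k}
    {w : Vert G} (ha' : ends G a = s(vtx G (x, false), w)) (hb' : ends G b = s(vtx G (x, true), w))
    {Z : Finset (Fin k)} (hZ : IsTri G M x Z) (he : e ∈ Z) (heM : e ∉ M)
    (hsub : Z ⊆ insert e {x, a, b}) :
    ends G e = s(vtx G (x, false), w) ∨ ends G e = s(vtx G (x, true), w) := by
  have hxe : e ≠ x := fun hh => heM (hh ▸ hZ.mem.2)
  by_cases hea : e = a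
  · rw [hea]; exact Or.inl ha'
  by_cases heb : e = b
  · rw [heb]; exact Or.inr hb'
  have hpw := h.ne_of_ends ha'
  have hqw := h.ne_of_ends hb'
  have hpq := h.no_loop x
  obtain ⟨a', b', w', ha'M, hb'M, hab', hZe, hea', heb'⟩ := hZ.shape h
  have hax : a' ≠ x := fun hh => ha'M (hh ▸ hZ.mem.2)
  have hbx : b' ≠ x := fun hh => hb'M (hh ▸ hZ.mem.2)
  have ha'Z : a' ∈ Z := by rw [hZe]; simp
  have hb'Z : b' ∈ Z := by rw [hZe]; simp
  have h1 := hsub ha'Z
  have h2 := hsub hb'Z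
  rw [hZe] at he
  simp only [mem_insert, mem_singleton] at he h1 h2
  rcases he with he | he | he
  · exact absurd he hxe
  · -- `e = a'`
    subst he
    rcases h2 with h2 | h2 | h2 | h2
    · exact absurd h2.symm hab'
    · exact absurd h2 hbx
    · subst h2
      rw [heb', Sym2.eq_iff] at ha'
      rcases ha' with ⟨c1, _⟩ | ⟨c1, _⟩
      · exact absurd c1.symm hpq
      · exact absurd c1 hqw
    · subst h2
      rw [heb', Sym2.eq_iff] at hb'
      rcases hb' with ⟨_, c1⟩ | ⟨c1, _⟩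
      · rw [hea', c1]; exact Or.inl rfl
      · exact absurd c1 hqw
  · -- `e = b'`
    subst he
    rcases h1 with h1 | h1 | h1 | h1
    · exact absurd h1 hab'
    · exact absurd h1 hax
    · subst h1
      rw [hea', Sym2.eq_iff] at ha'
      rcases ha' with ⟨_, c1⟩ | ⟨c1, _⟩
      · rw [heb', c1]; exact Or.inr rfl
      · exact absurd c1 hpw
    · subst h1
      rw [hea', Sym2.eq_iff] at hb'
      rcases hb' with ⟨c1, _⟩ | ⟨c1, _⟩
      · exact absurd c1 hpq
      · exact absurd c1 hpw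

/-- the structure of the tight sets -/
theorem tight_good {G : Ribbon k} {M : Finset (Fin k)} (h : TDom G M) (F J : Finset (Fin k))
    (hJM : J ⊆ M) (hFM : Disjoint F M) (ht : Tight G M (F ∪ J)) :
    F ⊆ M.biUnion (UU G M) ∧ (∀ x ∈ M, x ∉ J → F ∩ UU G M x = ∅) ∧
      ∀ x ∈ J, GoodE G x (F ∩ UU G M x) := by
  classical
  obtain ⟨T, hT, hf⟩ := ht
  have hFJ : (F ∪ J) ∩ M = J := by
    ext x
    simp only [mem_inter, mem_union]
    constructor
    · rintro ⟨hh | hh, hR⟩
      · exact absurd hR (disjoint_left.mp hFM hh)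
      · exact hh
    · intro hh
      exact ⟨Or.inr hh, hJM hh⟩
  rw [hFJ] at hT hf
  have hF : ∀ f ∈ F, f ∉ M := fun f hf => disjoint_left.1 hFM hf
  have key : ∀ f ∈ F, ∃ y ∈ J, f ∈ UU G M y ∧ ∃ Z, IsTri G M y Z ∧ f ∈ Z ∧ Z ⊆ insert f (T y) := by
    intro f hfF
    obtain ⟨y, hy, Z, hZ, hfZ, hZT⟩ := hf f (mem_union_left _ hfF) (hF f hfF)
    exact ⟨y, hy, mem_UU.2 ⟨hF f hfF, Z, hZ, hfZ⟩, Z, hZ, hfZ, hZT⟩
  refine ⟨?_, ?_, ?_⟩
  · intro f hfF
    obtain ⟨y, hy, hfy, -⟩ := key f hfF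
    exact mem_biUnion.2 ⟨y, hJM hy, hfy⟩
  · intro x _ hxJ
    rw [eq_empty_iff_forall_notMem]
    intro f hfx
    rw [mem_inter] at hfx
    obtain ⟨y, hy, hfy, -⟩ := key f hfx.1
    exact hxJ (UU_disj h hfx.2 hfy ▸ hy)
  · intro x hx
    obtain ⟨hTx, hTxH⟩ := hT x hx
    obtain ⟨a, b, w, haM, hbM, hab, hTe, hae, hbe⟩ := hTx.shape h
    have haT : a ∈ T x := by rw [hTe]; simp
    have hbT : b ∈ T x := by rw [hTe]; simp
    have haF : a ∈ F := (mem_union.1 (hTxH haT)).resolve_right (fun hh => haM (hJM hh))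
    have hbF : b ∈ F := (mem_union.1 (hTxH hbT)).resolve_right (fun hh => hbM (hJM hh))
    refine ⟨w, ⟨a, mem_inter.2 ⟨haF, mem_UU.2 ⟨haM, T x, hTx, haT⟩⟩, hae⟩,
      ⟨b, mem_inter.2 ⟨hbF, mem_UU.2 ⟨hbM, T x, hTx, hbT⟩⟩, hbe⟩, ?_⟩
    intro e he
    rw [mem_inter] at he
    obtain ⟨y, hy, hey, Z, hZ, heZ, hZT⟩ := key e he.1
    have hyx : y = x := UU_disj h hey he.2
    subst hyx
    rw [hTe] at hZT
    exact parallel_in_tri h hae hbe hZ heZ (hF e he.1) hZT

/-- good sets are tight -/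
theorem good_tight {G : Ribbon k} {M : Finset (Fin k)} (h : TDom G M) (F : Finset (Fin k))
    (hF : F ⊆ M.biUnion (UU G M))
    (hg : ∀ x ∈ M, F ∩ UU G M x = ∅ ∨ GoodE G x (F ∩ UU G M x)) :
    G.comps (F ∪ JJ G M F) + 2 * (JJ G M F).card = G.verts := by
  classical
  have hFM : ∀ f ∈ F, f ∉ M := by
    intro f hf
    obtain ⟨x, _, hx⟩ := mem_biUnion.1 (hF hf)
    exact (mem_UU.1 hx).1
  have hFMd : Disjoint F M := disjoint_left.2 hFM
  set J' := M.filter (fun x => F ∩ UU G M x ≠ ∅) with hJ'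
  have hJ'm : ∀ x, x ∈ J' ↔ x ∈ M ∧ F ∩ UU G M x ≠ ∅ := by intro x; rw [hJ', mem_filter]
  have hJ'M : J' ⊆ M := filter_subset _ _
  have hgJ : ∀ x ∈ J', GoodE G x (F ∩ UU G M x) := by
    intro x hx
    rw [hJ'm] at hx
    exact (hg x hx.1).resolve_left hx.2
  have hex : ∀ x, ∃ ab : Fin k × Fin k, x ∈ J' → ∃ w, (ab.1 ∈ F ∩ UU G M x ∧
      ends G ab.1 = s(vtx G (x, false), w)) ∧ (ab.2 ∈ F ∩ UU G M x ∧
      ends G ab.2 = s(vtx G (x, true), w)) ∧
      ∀ e ∈ F ∩ UU G M x, ends G e = s(vtx G (x, false), w) ∨ ends G e = s(vtx G (x, true), w) := by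
    intro x
    by_cases hx : x ∈ J'
    · obtain ⟨w, ⟨a, ha⟩, ⟨b, hb⟩, he⟩ := hgJ x hx
      exact ⟨(a, b), fun _ => ⟨w, ha, hb, he⟩⟩
    · exact ⟨(x, x), fun hh => absurd hh hx⟩
  choose ab hab using hex
  set T : Fin k → Finset (Fin k) := fun x => {x, (ab x).1, (ab x).2} with hTdef
  have hTri : ∀ x ∈ J', IsTri G M x (T x) := by
    intro x hx
    obtain ⟨w, ⟨ha1, ha2⟩, ⟨hb1, hb2⟩, -⟩ := hab x hx
    exact even_triangle h (hJ'M hx) (hFM _ (mem_inter.1 ha1).1) (hFM _ (mem_inter.1 hb1).1) ha2 hb2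
  set K := J'.biUnion T with hK
  have hrK := rank_K h T J' hTri
  rw [← hK] at hrK
  have hKsub : K ⊆ F ∪ J' := by
    rw [hK, biUnion_subset]
    intro x hx e he
    obtain ⟨w, ⟨ha1, ha2⟩, ⟨hb1, hb2⟩, -⟩ := hab x hx
    simp only [hTdef, mem_insert, mem_singleton] at he
    rcases he with rfl | rfl | rfl
    · exact mem_union_right _ hx
    · exact mem_union_left _ (mem_inter.1 ha1).1
    · exact mem_union_left _ (mem_inter.1 hb1).1
  have hxK : ∀ x ∈ M, x ∈ K → x ∈ J' := by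
    intro x hxM hx
    rcases mem_union.1 (hKsub hx) with hh | hh
    · exact absurd hxM (hFM x hh)
    · exact hh
  have hJK : J' ⊆ K := fun x hx => mem_biUnion.2 ⟨x, hx, (hTri x hx).mem.1⟩
  -- `F` is in the closure of `K`
  have hcl : ∀ f ∈ F, f ∉ K → ∃ Z, EvenSet G Z ∧ f ∈ Z ∧ Z ⊆ insert f K := by
    intro f hf hfK
    obtain ⟨x, hxM, hx⟩ := mem_biUnion.1 (hF hf)
    have hfx : f ∈ F ∩ UU G M x := mem_inter.2 ⟨hf, hx⟩
    have hxJ : x ∈ J' := (hJ'm x).2 ⟨hxM, ne_empty_of_mem hfx⟩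
    obtain ⟨w, ⟨ha1, ha2⟩, ⟨hb1, hb2⟩, he⟩ := hab x hxJ
    have haK : (ab x).1 ∈ K := mem_biUnion.2 ⟨x, hxJ, by simp [hTdef]⟩
    have hbK : (ab x).2 ∈ K := mem_biUnion.2 ⟨x, hxJ, by simp [hTdef]⟩
    rcases he f hfx with h1 | h1
    · refine ⟨{f, (ab x).1}, even_parallel G (fun hh => hfK (hh ▸ haK)) (h1.trans ha2.symm),
        mem_insert_self _ _, ?_⟩
      intro z hz
      rw [mem_insert, mem_singleton] at hz
      rcases hz with rfl | rfl
      · exact mem_insert_self _ _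
      · exact mem_insert_of_mem haK
    · refine ⟨{f, (ab x).2}, even_parallel G (fun hh => hfK (hh ▸ hbK)) (h1.trans hb2.symm),
        mem_insert_self _ _, ?_⟩
      intro z hz
      rw [mem_insert, mem_singleton] at hz
      rcases hz with rfl | rfl
      · exact mem_insert_self _ _
      · exact mem_insert_of_mem hbK
  -- the nonbridges
  have hJJ : JJ G M F = J' := by
    ext x
    rw [mem_JJ]
    constructor
    · rintro ⟨hxM, hx⟩
      by_contra hxJ
      have hxK' : x ∉ K := fun hh => hxJ (hxK x hxM hh)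
      have hKFM : K ∪ M ⊆ F ∪ M := by
        intro z hz
        rcases mem_union.1 hz with hz | hz
        · exact union_subset_union le_rfl hJ'M (hKsub hz)
        · exact mem_union_right _ hz
      have e1 : G.comps (F ∪ M) = G.comps (K ∪ M) := by
        apply comps_closure G (K ∪ M) (F ∪ M) hKFM
        intro f hf
        rw [mem_sdiff, mem_union, mem_union, not_or] at hf
        obtain ⟨Z, hZ, hfZ, hZK⟩ := hcl f (hf.1.resolve_right hf.2.2) hf.2.1
        exact ⟨Z, hZ, hfZ, hZK.trans (insert_subset_insert _ subset_union_left)⟩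
      have e2 : G.comps ((F ∪ M).erase x) = G.comps ((K ∪ M).erase x) := by
        apply comps_closure G _ _ (erase_subset_erase _ hKFM)
        intro f hf
        rw [mem_sdiff, mem_erase, mem_erase, mem_union, mem_union] at hf
        have hfK : f ∉ K := fun hh => hf.2 ⟨hf.1.1, Or.inl hh⟩
        have hfM : f ∉ M := fun hh => hf.2 ⟨hf.1.1, Or.inr hh⟩
        obtain ⟨Z, hZ, hfZ, hZK⟩ := hcl f (hf.1.2.resolve_right hfM) hfK
        refine ⟨Z, hZ, hfZ, hZK.trans (insert_subset_insert _ ?_)⟩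
        intro z hz
        rw [mem_erase]
        exact ⟨fun hh => hxK' (hh ▸ hz), mem_union_left _ hz⟩
      have e3 : G.comps (insert x ((K ∪ M).erase x)) = G.comps ((K ∪ M).erase x) := by
        rw [insert_erase (mem_union_right _ hxM), ← e1, ← e2, hx]
      obtain ⟨Z, hZ, hxZ, hZK⟩ := exists_even G ((K ∪ M).erase x) x (notMem_erase _ _) e3
      rw [insert_erase (mem_union_right _ hxM)] at hZK
      obtain ⟨Z', a1, a2, a3, a4⟩ := reduce' h J' T hTri Z hZ
      rw [← hK] at a2 a4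
      have hxZ' : x ∈ Z' := by
        have : x ∈ Z \ K := mem_sdiff.2 ⟨hxZ, hxK'⟩
        rw [← a2] at this
        exact (mem_sdiff.1 this).1
      have a5 := h.one ⟨x, hxZ'⟩ a1
      have a6 : ∑ x ∈ J', NN M (Z' ∩ T x) ≤ 0 := sum_nonpos a3
      have a7 : NN M (Z \ K) ≤ 0 := by
        unfold NN
        apply sum_nonpos
        intro z hz
        rw [mem_sdiff] at hz
        have hzM : z ∈ M := (mem_union.1 (hZK hz.1)).resolve_left hz.2
        rw [if_pos hzM]
        norm_num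
      omega
    · intro hxJ
      refine ⟨hJ'M hxJ, ?_⟩
      have hTx := hTri x hxJ
      have h1 := comps_insert_even G (T x) hTx.even x hTx.mem.1 ((F ∪ M).erase x) (by
        intro z hz
        rw [mem_erase] at hz ⊢
        refine ⟨hz.1, ?_⟩
        have : z ∈ K := mem_biUnion.2 ⟨x, hxJ, hz.2⟩
        exact union_subset_union le_rfl hJ'M (hKsub this))
      rw [insert_erase (mem_union_right _ (hJ'M hxJ))] at h1
      exact h1.symm
  rw [hJJ]
  have e1 : G.comps (F ∪ J') = G.comps K := by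
    apply comps_closure G K (F ∪ J') hKsub
    intro f hf
    rw [mem_sdiff, mem_union] at hf
    exact hcl f (hf.1.resolve_right (fun hh => hf.2 (hJK hh))) hf.2
  rw [e1]
  exact hrK

open Classical in
/-- the contribution of the part at `x` -/
noncomputable def cc (G : Ribbon k) (x : Fin k) (Y : Finset (Fin k)) : ℤ :=
  if Y = ∅ then 1 else if GoodE G x Y then (-1) ^ (Y.card + 1) else 0

open Classical in
/-- the coefficient of a block -/
theorem blk_local (Γ : Ribbon k) (hΓ : Γ.Planar) (hk : 0 < k) (S M : Finset (Fin k))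
    (h : TDom (stateGraph Γ S) M)
    (hcurv : ∀ X, (stateGraph Γ S).curves X + (stateGraph Γ S).verts =
      X.card + 2 * (stateGraph Γ S).comps X)
    (F : Finset (Fin k)) (hFM : Disjoint F M) :
    GE (blk (stateGraph Γ S) M F) (4 * M.card - 2 * (stateGraph Γ S).verts + 2) ∧
    (blk (stateGraph Γ S) M F).coeff (4 * M.card - 2 * (stateGraph Γ S).verts + 2) =
      (-1) ^ ((stateGraph Γ S).verts + 1) *
        if F ⊆ M.biUnion (UU (stateGraph Γ S) M) then
          ∏ x ∈ M, cc (stateGraph Γ S) x (F ∩ UU (stateGraph Γ S) M x) else 0 := by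
  set G := stateGraph Γ S with hG
  have hFJ := JJ_inter G M F hFM
  have hr := rank_tri Γ hΓ S M h (F ∪ JJ G M F) (by
    rw [← hG, hFJ]
    exact JJ_nonbridge G M F hFM)
  rw [← hG, hFJ] at hr
  obtain ⟨hr1, hr2⟩ := hr
  obtain ⟨b1, b2, b3⟩ := blk_coeff G hk M F hFM hr1
  refine ⟨b1, ?_⟩
  rcases Nat.lt_or_ge (G.comps (F ∪ JJ G M F) + 2 * (JJ G M F).card) G.verts with hlt | hge
  · rw [b2 hlt]
    by_cases hsub : F ⊆ M.biUnion (UU G M)
    · rw [if_pos hsub]
      have : ∃ x ∈ M, cc G x (F ∩ UU G M x) = 0 := by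
        by_contra hcon
        push Not at hcon
        have h1 := good_tight h F hsub (fun x hx => by
          have h2 := hcon x hx
          unfold cc at h2
          by_cases h3 : F ∩ UU G M x = ∅
          · exact Or.inl h3
          · right
            rw [if_neg h3] at h2
            by_contra h4
            rw [if_neg h4] at h2
            exact h2 rfl)
        omega
      obtain ⟨x, hx, hx0⟩ := this
      rw [prod_eq_zero hx hx0, mul_zero]
    · rw [if_neg hsub, mul_zero]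
  · have heq : G.comps (F ∪ JJ G M F) + 2 * (JJ G M F).card = G.verts := by omega
    obtain ⟨g1, g2, g3⟩ := tight_good h F (JJ G M F) (JJ_sub G M F) hFM (hr2 heq)
    have hc := hcurv (F ∪ JJ G M F)
    rw [card_union_of_disjoint (disjoint_of_subset_right (JJ_sub G M F) hFM)] at hc
    rw [b3 heq hc, if_pos g1]
    congr 1
    have hp : ∏ x ∈ M, cc G x (F ∩ UU G M x) = ∏ x ∈ JJ G M F, (-1 : ℤ) ^ ((F ∩ UU G M x).card + 1) := by
      rw [← prod_subset (JJ_sub G M F)]
      · apply prod_congr rfl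
        intro x hx
        unfold cc
        rw [if_neg (g3 x hx).ne_empty, if_pos (g3 x hx)]
      · intro x hx hxJ
        unfold cc
        rw [if_pos (g2 x hx hxJ)]
    rw [hp, prod_pow_eq_pow_sum, sum_add_distrib, sum_const, smul_eq_mul, mul_one]
    congr 2
    have hFe : F = (JJ G M F).biUnion (fun x => F ∩ UU G M x) := by
      ext f
      rw [mem_biUnion]
      constructor
      · intro hf
        obtain ⟨x, hxM, hx⟩ := mem_biUnion.1 (g1 hf)
        refine ⟨x, ?_, mem_inter.2 ⟨hf, hx⟩⟩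
        by_contra hxJ
        have := g2 x hxM hxJ
        rw [eq_empty_iff_forall_notMem] at this
        exact this f (mem_inter.2 ⟨hf, hx⟩)
      · rintro ⟨x, _, hx⟩
        exact (mem_inter.1 hx).1
    conv_lhs => rw [hFe]
    rw [card_biUnion]
    intro x _ y _ hxy
    rw [Function.onFun, disjoint_left]
    intro f hf hf'
    exact hxy (UU_disj h (mem_inter.1 hf).2 (mem_inter.1 hf').2)

end Pool.Agent.H756.TD
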