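import Pool.Agent.H756.TD.Sum
import Pool.Graph.R_seed8.H891R2.DS.Final

set_option autoImplicit false

/-!
Triangular domination: the final statement.
-/

namespace Pool.Agent.H756.TD

open Finset LaurentPolynomial Pool.Agent.H891R2.Jones Pool.Agent.H891R2.MT Pool.Agent.H891R2.DS
open Pool.Agent.N569.OD (Vert vtx ends)
open Pool.Agent.H891R2.DS.Fin' (coeff_T_mul)

variable {k : ℕ}

theorem stateGraph_empty (Γ : Ribbon k) : stateGraph Γ ∅ = Γ := by
  apply D1.ribbon_ext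
  apply Equiv.ext
  intro d
  rw [D1.sg_rot_apply, if_neg (notMem_empty _)]

theorem stateGraph_univ_univ (Γ : Ribbon k) : stateGraph (stateGraph Γ univ) univ = Γ := by
  have h := sg_dual Γ ∅
  rwa [compl_empty, stateGraph_empty] at h

theorem Asm_empty (R : Finset (Fin k)) : Asm R ∅ = R := by
  ext e
  simp [Asm]

theorem Asm_univ (R : Finset (Fin k)) : (Asm R univ)ᶜ = R := by
  ext e
  simp [Asm]

theorem planar_curves (Γ : Ribbon k) (hΓ : Γ.Planar) (X : Finset (Fin k)) :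
    Γ.curves X + Γ.verts = X.card + 2 * Γ.comps X := by
  have h := T2.curves_eq Γ hΓ X
  omega

/-- the extreme coefficient of the state sum of a planar graph -/
theorem PP_planar (Γ : Ribbon k) (hΓ : Γ.Planar) (hk : 0 < k) (M : Finset (Fin k))
    (h : TDom Γ M) :
    GE (PP Γ M) (4 * M.card - 2 * Γ.verts + 2) ∧
    (PP Γ M).coeff (4 * M.card - 2 * Γ.verts + 2) =
      (-1) ^ (Γ.verts + 1) * ∏ x ∈ M, (1 - (kap Γ M x : ℤ)) := by
  have h1 := PP_coeff Γ hΓ hk ∅ M (by rw [stateGraph_empty]; exact h)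
    (by rw [stateGraph_empty]; exact planar_curves Γ hΓ)
  rwa [stateGraph_empty] at h1

theorem PP_abs (Γ : Ribbon k) (hΓ : Γ.Planar) (hk : 0 < k) (M : Finset (Fin k))
    (h : TDom Γ M) :
    |(PP Γ M).coeff (4 * M.card - 2 * Γ.verts + 2)| = ∏ x ∈ M, |1 - (kap Γ M x : ℤ)| := by
  rw [(PP_planar Γ hΓ hk M h).2, abs_mul, abs_pow, abs_neg, abs_one, one_pow, one_mul,
    Finset.abs_prod]

/-- the number of vertices -/
theorem verts_ge (Γ : Ribbon k) (hΓ : Γ.Planar) (M : Finset (Fin k))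
    (h : TDom Γ M) (h' : TDom (stateGraph Γ univ) M) : 2 * M.card + 1 ≤ Γ.verts := by
  have h1 := (rank_tri Γ hΓ ∅ M (by rw [stateGraph_empty]; exact h) univ (by
    rw [stateGraph_empty]
    intro e _
    have h2 := T3a.comps_erase Γ univ e (mem_univ _)
    by_contra hcon
    have h3 := bridge_sameCycle Γ univ e (mem_univ _) (by omega)
    exact h'.no_loop e ((vtx_eq_iff _ _ _).2 h3))).1
  rw [stateGraph_empty, univ_inter, hΓ.1] at h1
  omega

theorem verts_add' (Γ : Ribbon k) (hΓ : Γ.Planar) :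
    Γ.verts + (stateGraph Γ univ).verts = k + 2 :=
  D3.verts_add (fun Γ S => sg_verts Γ S) Γ hΓ

theorem four_mul_le (Γ : Ribbon k) (hΓ : Γ.Planar) (M : Finset (Fin k))
    (h : TDom Γ M) (h' : TDom (stateGraph Γ univ) M) : 4 * M.card ≤ k := by
  have h1 := verts_ge Γ hΓ M h h'
  have h2 := verts_ge (stateGraph Γ univ) (planar_dual Γ hΓ) M h'
    (by rw [stateGraph_univ_univ]; exact h)
  have h3 := verts_add' Γ hΓ
  omega

/-- the lower end -/
noncomputable def lo (Γ : Ribbon k) (m : ℕ) (w : ℤ) : ℤ := 6 * m - k - 2 * Γ.verts + 2 - 3 * w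

/-- the upper end -/
noncomputable def hi (Γ : Ribbon k) (m : ℕ) (w : ℤ) : ℤ :=
  k + 2 * (stateGraph Γ univ).verts - 2 - 6 * m - 3 * w

theorem coeff_f (Γ : Ribbon k) (R : Finset (Fin k))
    (hk : 0 < k) (D : Diagram (Ribbon.Pt (sg R))) (hD : Orients D (Γ.link (sg R))) (j : ℤ) :
    D.fPoly.coeff j = (if Even D.writhe then 1 else -1) *
      ((Γ.link (sg R)).std.bracket).coeff (j - (-3 * D.writhe)) := by
  have hP : Nonempty (Ribbon.Pt (sg R)) := ⟨⟨⟨0, hk⟩, 0, true⟩⟩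
  have hbr : D.bracket = (Γ.link (sg R)).std.bracket := Pool.Agent.H891R2.MT.T6.bracket_orients D _ hD
  unfold Diagram.fPoly
  rw [hbr]
  by_cases hw : Even D.writhe
  · rw [if_pos hw, if_pos hw, one_mul, one_mul, coeff_T_mul]
  · rw [if_neg hw, if_neg hw]
    have e0 : (-1 : ℤ[T;T⁻¹]) * T (-3 * D.writhe) * (Γ.link (sg R)).std.bracket =
        -(T (-3 * D.writhe) * (Γ.link (sg R)).std.bracket) := by ring
    rw [e0]
    have : (-(T (-3 * D.writhe) * (Γ.link (sg R)).std.bracket)).coeff j =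
        -((T (-3 * D.writhe) * (Γ.link (sg R)).std.bracket).coeff j) := rfl
    rw [this, coeff_T_mul, neg_one_mul]

theorem abs_f (Γ : Ribbon k) (R : Finset (Fin k))
    (hk : 0 < k) (D : Diagram (Ribbon.Pt (sg R))) (hD : Orients D (Γ.link (sg R))) (j : ℤ) :
    |D.fPoly.coeff j| = |((Γ.link (sg R)).std.bracket).coeff (j + 3 * D.writhe)| := by
  rw [coeff_f Γ R hk D hD j, abs_mul]
  have hs1 : |(if Even D.writhe then (1 : ℤ) else -1)| = 1 := by split_ifs <;> simp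
  rw [hs1, one_mul]
  congr 2
  ring

theorem lower (Γ : Ribbon k) (hΓ : Γ.Planar) (hk : 0 < k) (R : Finset (Fin k))
    (D : Diagram (Ribbon.Pt (sg R))) (hD : Orients D (Γ.link (sg R))) (h : TDom Γ R) :
    (∀ j, D.fPoly.coeff j ≠ 0 → lo Γ R.card D.writhe ≤ j) ∧
      |D.fPoly.coeff (lo Γ R.card D.writhe)| = ∏ x ∈ R, |1 - (kap Γ R x : ℤ)| := by
  have hbs := bracket_state Γ hk R ∅
  rw [Asm_empty, stateGraph_empty] at hbs
  constructor
  · intro j hj
    have h1 : |D.fPoly.coeff j| ≠ 0 := abs_ne_zero.2 hj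
    rw [abs_f Γ R hk D hD, abs_ne_zero, hbs, coeff_T_mul] at h1
    have := (PP_planar Γ hΓ hk R h).1 _ h1
    unfold lo
    linarith
  · rw [abs_f Γ R hk D hD, hbs, coeff_T_mul, ← PP_abs Γ hΓ hk R h]
    congr 2
    unfold lo
    ring

theorem upper (Γ : Ribbon k) (hΓ : Γ.Planar) (hk : 0 < k) (R : Finset (Fin k))
    (D : Diagram (Ribbon.Pt (sg R))) (hD : Orients D (Γ.link (sg R)))
    (h : TDom (stateGraph Γ univ) R) :
    (∀ j, D.fPoly.coeff j ≠ 0 → j ≤ hi Γ R.card D.writhe) ∧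
      |D.fPoly.coeff (hi Γ R.card D.writhe)| = ∏ x ∈ R, |1 - (kap (stateGraph Γ univ) R x : ℤ)| := by
  have hbs := fun j => bracket_state' Γ hk R univ j
  rw [Asm_univ] at hbs
  have hΓ' := planar_dual Γ hΓ
  constructor
  · intro j hj
    have h1 : |D.fPoly.coeff j| ≠ 0 := abs_ne_zero.2 hj
    rw [abs_f Γ R hk D hD, abs_ne_zero, hbs, coeff_T_mul] at h1
    have := (PP_planar _ hΓ' hk R h).1 _ h1
    unfold hi
    linarith
  · rw [abs_f Γ R hk D hD, hbs, coeff_T_mul, ← PP_abs _ hΓ' hk R h]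
    congr 2
    unfold hi
    ring

theorem coeff_pm_T (n j : ℤ) : |(T n : ℤ[T;T⁻¹]).coeff j| ≤ 1 ∧
    ((T n : ℤ[T;T⁻¹]).coeff j ≠ 0 → j = n) := by
  have e : (T n : ℤ[T;T⁻¹]).coeff j = if n = j then 1 else 0 := Finsupp.single_apply
  rw [e]
  by_cases h : n = j
  · rw [if_pos h]
    exact ⟨by simp, fun _ => h.symm⟩
  · rw [if_neg h]
    exact ⟨by simp, fun h' => absurd rfl h'⟩

theorem main (Γ : Ribbon k) (hΓ : Γ.Planar) (hk : 0 < k) (R : Finset (Fin k))
    (D : Diagram (Ribbon.Pt (sg R))) (hD : Orients D (Γ.link (sg R))) :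
    (TDom Γ R → (∀ j, D.fPoly.coeff j ≠ 0 → lo Γ R.card D.writhe ≤ j) ∧
      |D.fPoly.coeff (lo Γ R.card D.writhe)| = ∏ x ∈ R, |1 - (kap Γ R x : ℤ)|) ∧
    (TDom (stateGraph Γ univ) R → (∀ j, D.fPoly.coeff j ≠ 0 → j ≤ hi Γ R.card D.writhe) ∧
      |D.fPoly.coeff (hi Γ R.card D.writhe)| =
        ∏ x ∈ R, |1 - (kap (stateGraph Γ univ) R x : ℤ)|) ∧
    hi Γ R.card D.writhe - lo Γ R.card D.writhe = 4 * (k - 3 * R.card) ∧
    (TDom Γ R → TDom (stateGraph Γ univ) R → 4 * R.card ≤ k) ∧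
    (TDom Γ R → TDom (stateGraph Γ univ) R →
      (∀ x ∈ R, kap Γ R x ≠ 1 ∧ kap (stateGraph Γ univ) R x ≠ 1) →
      ∀ n : ℤ, D.fPoly ≠ T n ∧ D.fPoly ≠ -T n) ∧
    (((TDom Γ R ∧ 2 ≤ ∏ x ∈ R, |1 - (kap Γ R x : ℤ)|) ∨
      (TDom (stateGraph Γ univ) R ∧ 2 ≤ ∏ x ∈ R, |1 - (kap (stateGraph Γ univ) R x : ℤ)|)) →
      ∀ n : ℤ, D.fPoly ≠ T n ∧ D.fPoly ≠ -T n) := by
  have hlohi : hi Γ R.card D.writhe - lo Γ R.card D.writhe = 4 * (k - 3 * R.card) := by
    have h3 : (Γ.verts : ℤ) + (stateGraph Γ univ).verts = k + 2 := by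
      exact_mod_cast verts_add' Γ hΓ
    unfold hi lo
    linarith
  have hneg : ∀ n j : ℤ, (-T n : ℤ[T;T⁻¹]).coeff j = -((T n : ℤ[T;T⁻¹]).coeff j) := fun n j => rfl
  refine ⟨fun h => lower Γ hΓ hk R D hD h, fun h => upper Γ hΓ hk R D hD h, hlohi,
    fun h h' => four_mul_le Γ hΓ R h h', ?_, ?_⟩
  · intro h h' hκ n
    obtain ⟨_, a1⟩ := lower Γ hΓ hk R D hD h
    obtain ⟨_, a2⟩ := upper Γ hΓ hk R D hD h'
    have a3 := four_mul_le Γ hΓ R h h'
    have b1 : D.fPoly.coeff (lo Γ R.card D.writhe) ≠ 0 := by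
      rw [← abs_ne_zero, a1]
      apply prod_ne_zero_iff.2
      intro x hx
      rw [abs_ne_zero]
      have := (hκ x hx).1
      omega
    have b2 : D.fPoly.coeff (hi Γ R.card D.writhe) ≠ 0 := by
      rw [← abs_ne_zero, a2]
      apply prod_ne_zero_iff.2
      intro x hx
      rw [abs_ne_zero]
      have := (hκ x hx).2
      omega
    constructor
    · intro hf
      rw [hf] at b1 b2
      have c1 := (coeff_pm_T n _).2 b1
      have c2 := (coeff_pm_T n _).2 b2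
      omega
    · intro hf
      rw [hf, hneg, neg_ne_zero] at b1 b2
      have c1 := (coeff_pm_T n _).2 b1
      have c2 := (coeff_pm_T n _).2 b2
      omega
  · intro h n
    have key : ∃ j, 2 ≤ |D.fPoly.coeff j| := by
      rcases h with ⟨h, h2⟩ | ⟨h, h2⟩
      · exact ⟨_, by rw [(lower Γ hΓ hk R D hD h).2]; exact h2⟩
      · exact ⟨_, by rw [(upper Γ hΓ hk R D hD h).2]; exact h2⟩
    obtain ⟨j, hj⟩ := key
    constructor
    · intro hf
      rw [hf] at hj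
      have := (coeff_pm_T n j).1
      omega
    · intro hf
      rw [hf, hneg, abs_neg] at hj
      have := (coeff_pm_T n j).1
      omega

end Pool.Agent.H756.TD
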