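import Pool.Agent.H756.TD.Tri

set_option autoImplicit false

/-!
The rank inequality for triangular domination.
-/

namespace Pool.Agent.H756.TD

open Finset LaurentPolynomial Pool.Agent.H891R2.Jones Pool.Agent.H891R2.MT Pool.Agent.H891R2.DS
open Pool.Agent.N569.OD (Vert vtx ends)
open Pool.Agent.H891R2.CA.C5a (rel comps_eq comps_empty comps_insert_of_eq cls mem_cls cls_rot)
open Pool.Agent.H891R2.DS.D5 (XX mem_bd XX_sub count closed')

variable {k : ℕ}

theorem sdiff_sdiff_K (S K H : Finset (Fin k)) (hK : K ⊆ H) : (S \ K) \ (H \ K) = S \ H := by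
  ext x
  simp only [mem_sdiff]
  constructor
  · rintro ⟨⟨a, b⟩, c⟩
    exact ⟨a, fun hh => c ⟨hh, b⟩⟩
  · rintro ⟨a, b⟩
    exact ⟨⟨a, fun hh => b (hK hh)⟩, fun hh => b hh.1⟩

/-- subgraphs without bridges relative to a set `K` -/
theorem rank_relative (Γ : Ribbon k) (hΓ : Γ.Planar) (S M : Finset (Fin k)) (K H : Finset (Fin k))
    (hKH : K ⊆ H) (hne : (H \ K).Nonempty)
    (hdom : ∀ Z, EvenSet (stateGraph Γ S) Z → Z ⊆ H → (Z \ K).Nonempty →
      ((Z \ K) ∩ M).card + 2 ≤ ((Z \ K) \ M).card)
    (hH : ∀ e ∈ H \ K, (stateGraph Γ S).comps (H.erase e) = (stateGraph Γ S).comps H) :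
    2 * ((H \ K) ∩ M).card + (stateGraph Γ S).comps H + 1 ≤ (stateGraph Γ S).comps K := by
  classical
  have hR := regions Γ hΓ S
  have hRH := hR H
  have hRK := hR K
  -- black side
  have hdb : ∀ e ∈ H \ K, e ∈ S \ K →
      Quot.mk (rel Γ ((S \ K) \ (H \ K))) (e, false) ≠ Quot.mk (rel Γ ((S \ K) \ (H \ K))) (e, true) := by
    rw [sdiff_sdiff_K S K H hKH]
    intro e he heS h
    rw [mem_sdiff] at he heS
    have hHpos : 0 < H.card := card_pos.2 ⟨e, he.1⟩
    have h2 := comps_insert_of_eq Γ (S \ H) e h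
    have h3 : insert e (S \ H) = S \ H.erase e := by
      ext x
      simp only [mem_insert, mem_sdiff, mem_erase, not_and, ne_eq]
      constructor
      · rintro (rfl | ⟨h4, h5⟩)
        · exact ⟨heS.1, fun h6 => absurd rfl h6⟩
        · exact ⟨h4, fun _ => h5⟩
      · rintro ⟨h4, h5⟩
        by_cases h6 : x = e
        · exact Or.inl h6
        · exact Or.inr ⟨h4, h5 h6⟩
    have h4 : Sᶜ \ H.erase e = Sᶜ \ H := by
      ext x
      simp only [mem_sdiff, mem_compl, mem_erase, not_and, ne_eq]
      constructor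
      · rintro ⟨h4, h5⟩
        exact ⟨h4, h5 (fun h6 => h4 (h6 ▸ heS.1))⟩
      · rintro ⟨h4, h5⟩
        exact ⟨h4, fun _ => h5⟩
    have h5 := hR (H.erase e)
    rw [hH e (mem_sdiff.2 he), card_erase_of_mem he.1, ← h3, h2, h4] at h5
    omega
  -- white side
  have hdw : ∀ e ∈ H \ K, e ∈ Sᶜ \ K →
      Quot.mk (rel (stateGraph Γ univ) ((Sᶜ \ K) \ (H \ K))) (e, false) ≠
        Quot.mk (rel (stateGraph Γ univ) ((Sᶜ \ K) \ (H \ K))) (e, true) := by
    rw [sdiff_sdiff_K Sᶜ K H hKH]
    intro e he heS h
    rw [mem_sdiff] at he heS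
    have hHpos : 0 < H.card := card_pos.2 ⟨e, he.1⟩
    have h2 := comps_insert_of_eq (stateGraph Γ univ) (Sᶜ \ H) e h
    have heS1 := heS.1
    rw [mem_compl] at heS1
    have h3 : insert e (Sᶜ \ H) = Sᶜ \ H.erase e := by
      ext x
      simp only [mem_insert, mem_sdiff, mem_erase, mem_compl, not_and, ne_eq]
      constructor
      · rintro (rfl | ⟨h4, h5⟩)
        · exact ⟨heS1, fun h6 => absurd rfl h6⟩
        · exact ⟨h4, fun _ => h5⟩
      · rintro ⟨h4, h5⟩
        by_cases h6 : x = e
        · exact Or.inl h6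
        · exact Or.inr ⟨h4, h5 h6⟩
    have h4 : S \ H.erase e = S \ H := by
      ext x
      simp only [mem_sdiff, mem_erase, not_and, ne_eq]
      constructor
      · rintro ⟨h4, h5⟩
        exact ⟨h4, h5 (fun h6 => heS1 (h6 ▸ h4))⟩
      · rintro ⟨h4, h5⟩
        exact ⟨h4, fun _ => h5⟩
    have h5 := hR (H.erase e)
    rw [hH e (mem_sdiff.2 he), card_erase_of_mem he.1, ← h3, h2, h4] at h5
    omega
  -- the boundaries of the regions
  have hXX : ∀ (Γ₀ : Ribbon k) (S₀ : Finset (Fin k)) (w : Quot (rel Γ₀ ((S₀ \ K) \ (H \ K)))),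
      stateGraph Γ₀ S₀ = stateGraph Γ S → (XX Γ₀ (S₀ \ K) (H \ K) w).Nonempty →
      (XX Γ₀ (S₀ \ K) (H \ K) w ∩ M).card + 2 ≤ (XX Γ₀ (S₀ \ K) (H \ K) w \ M).card := by
    intro Γ₀ S₀ w hG hne
    have h1 : XX Γ₀ (S₀ \ K) (H \ K) w = (bd (cls Γ₀ ((S₀ \ K) \ (H \ K)) w) ∩ S₀) \ K := by
      unfold XX
      ext x
      simp only [mem_inter, mem_sdiff]
      tauto
    have h2 : EvenSet (stateGraph Γ S) (bd (cls Γ₀ ((S₀ \ K) \ (H \ K)) w) ∩ S₀) := by
      rw [← hG]
      exact even_region Γ₀ S₀ _ (cls_rot Γ₀ _ w)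
    have h3 : bd (cls Γ₀ ((S₀ \ K) \ (H \ K)) w) ∩ S₀ ⊆ H := by
      intro e he
      rw [mem_inter] at he
      have h4 := Pool.Agent.H891R2.CA.C5a.cls_bd Γ₀ _ w e he.1
      rw [sdiff_sdiff_K S₀ K H hKH, mem_sdiff, not_and_not_right] at h4
      exact h4 he.2
    rw [h1] at hne ⊢
    exact hdom _ h2 h3 hne
  have hb := D5.side Γ (S \ K) (H \ K) M hdb (fun w hw => hXX Γ S w rfl hw)
  have hw := D5.side (stateGraph Γ univ) (Sᶜ \ K) (H \ K) M hdw
    (fun w hw => hXX (stateGraph Γ univ) Sᶜ w (sg_dual Γ S) hw)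
  rw [sdiff_sdiff_K S K H hKH] at hb
  rw [sdiff_sdiff_K Sᶜ K H hKH] at hw
  -- cardinalities
  have hc1 : ((H \ K) ∩ M).card = ((H \ K) ∩ (S \ K) ∩ M).card + ((H \ K) ∩ (Sᶜ \ K) ∩ M).card := by
    rw [← card_union_of_disjoint]
    · congr 1
      ext x
      simp only [mem_inter, mem_union, mem_compl, mem_sdiff]
      tauto
    · rw [disjoint_left]
      intro x hx hx'
      simp only [mem_inter, mem_compl, mem_sdiff] at hx hx'
      tauto
  have hc2 : ((H \ K) \ M).card = (((H \ K) ∩ (S \ K)) \ M).card + (((H \ K) ∩ (Sᶜ \ K)) \ M).card := by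
    rw [← card_union_of_disjoint]
    · congr 1
      ext x
      simp only [mem_inter, mem_union, mem_compl, mem_sdiff]
      tauto
    · rw [disjoint_left]
      intro x hx hx'
      simp only [mem_inter, mem_compl, mem_sdiff] at hx hx'
      tauto
  have hc3 : (H \ K).card + K.card = H.card := card_sdiff_add_card_eq_card hKH
  have hc4 : ((H \ K) ∩ M).card + ((H \ K) \ M).card = (H \ K).card := card_inter_add_card_sdiff _ _
  have hor : ((H \ K) ∩ (S \ K)).Nonempty ∨ ((H \ K) ∩ (Sᶜ \ K)).Nonempty := by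
    obtain ⟨e, he⟩ := hne
    have he' := (mem_sdiff.1 he).2
    by_cases h : e ∈ S
    · exact Or.inl ⟨e, mem_inter.2 ⟨he, mem_sdiff.2 ⟨h, he'⟩⟩⟩
    · exact Or.inr ⟨e, mem_inter.2 ⟨he, mem_sdiff.2 ⟨mem_compl.2 h, he'⟩⟩⟩
  rcases hor with h | h
  · have h6 := hb.2 h
    have h7 := hw.1
    omega
  · have h6 := hb.1
    have h7 := hw.2 h
    omega

/-- the structure of the sets of edges of extremal rank -/
def Tight (G : Ribbon k) (M H : Finset (Fin k)) : Prop :=
  ∃ T : Fin k → Finset (Fin k), (∀ x ∈ H ∩ M, IsTri G M x (T x) ∧ T x ⊆ H) ∧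
    ∀ f ∈ H, f ∉ M → ∃ y ∈ H ∩ M, ∃ Z, IsTri G M y Z ∧ f ∈ Z ∧ Z ⊆ insert f (T y)

/-- the rank inequality -/
theorem rank_tri (Γ : Ribbon k) (hΓ : Γ.Planar) (S M : Finset (Fin k))
    (h : TDom (stateGraph Γ S) M) (H : Finset (Fin k))
    (hH : ∀ e ∈ H ∩ M, (stateGraph Γ S).comps (H.erase e) = (stateGraph Γ S).comps H) :
    (stateGraph Γ S).comps H + 2 * (H ∩ M).card ≤ (stateGraph Γ S).verts ∧
      ((stateGraph Γ S).comps H + 2 * (H ∩ M).card = (stateGraph Γ S).verts →
        Tight (stateGraph Γ S) M H) := by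
  classical
  set G := stateGraph Γ S with hG
  induction hn : H.card using Nat.strong_induction_on generalizing H with
  | _ n ih =>
    by_cases hb1 : ∃ b ∈ H, G.comps (H.erase b) = G.comps H + 1
    · obtain ⟨b, hbH, hb1⟩ := hb1
      have hbR : b ∉ M := by
        intro hbR
        have := hH b (mem_inter.2 ⟨hbH, hbR⟩)
        omega
      have hint : (H.erase b) ∩ M = H ∩ M := by
        ext x
        simp only [mem_inter, mem_erase]
        constructor
        · rintro ⟨⟨_, h1⟩, h2⟩
          exact ⟨h1, h2⟩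
        · rintro ⟨h1, h2⟩
          exact ⟨⟨fun hxb => hbR (hxb ▸ h2), h1⟩, h2⟩
      have hlt : (H.erase b).card < n := by
        rw [← hn]
        exact card_erase_lt_of_mem hbH
      have h1 := (ih (H.erase b).card hlt (H.erase b) (by
        rw [hint]
        intro e he
        have heb : b ≠ e := fun h => hbR (h ▸ (mem_inter.1 he).2)
        have h2 := Pool.Agent.H891R2.CA.C6.bridge_mono G H (H.erase e) b (mem_erase.2 ⟨heb, hbH⟩)
          (erase_subset _ _) hb1
        rw [erase_right_comm, h2, hH e he, hb1]) rfl).1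
      rw [hint] at h1
      constructor
      · omega
      · intro h2
        omega
    · push Not at hb1
      have h0 : ∀ e ∈ H, G.comps (H.erase e) = G.comps H := by
        intro e he
        have h1 := T3a.comps_erase G H e he
        have h2 := hb1 e he
        omega
      -- the system of triangles
      set J := (H ∩ M).filter (fun x => ∃ T, IsTri G M x T ∧ T ⊆ H) with hJ
      have hJm : ∀ x, x ∈ J ↔ x ∈ H ∩ M ∧ ∃ T, IsTri G M x T ∧ T ⊆ H := by
        intro x; rw [hJ, mem_filter]
      have hex : ∀ x, ∃ T, x ∈ J → IsTri G M x T ∧ T ⊆ H := by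
        intro x
        by_cases hx : x ∈ J
        · obtain ⟨T, hT⟩ := ((hJm x).1 hx).2
          exact ⟨T, fun _ => hT⟩
        · exact ⟨∅, fun hx' => absurd hx' hx⟩
      choose T hT using hex
      have hTri : ∀ x ∈ J, IsTri G M x (T x) := fun x hx => (hT x hx).1
      set K := J.biUnion T with hK
      have hKH : K ⊆ H := by
        rw [hK, biUnion_subset]
        exact fun x hx => (hT x hx).2
      have hKM : K ∩ M = J := by
        ext x
        rw [mem_inter, hK, mem_biUnion]
        constructor
        · rintro ⟨⟨y, hy, hxy⟩, hxM⟩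
          rw [(hTri y hy).eq_of_mem hxy hxM]
          exact hy
        · intro hx
          exact ⟨⟨x, hx, (hTri x hx).mem.1⟩, (hTri x hx).mem.2⟩
      have hrK := rank_K h T J hTri
      rw [← hK] at hrK
      -- the edges in the closure of `K`
      set P := (H \ K).filter (fun f => ∃ Z, EvenSet G Z ∧ f ∈ Z ∧ Z ⊆ insert f K) with hP
      have hPm : ∀ f, f ∈ P ↔ f ∈ H \ K ∧ ∃ Z, EvenSet G Z ∧ f ∈ Z ∧ Z ⊆ insert f K := by
        intro f; rw [hP, mem_filter]
      have hPM : ∀ f ∈ P, f ∉ M ∧ ∃ y ∈ J, ∃ Z', IsTri G M y Z' ∧ f ∈ Z' ∧ Z' ⊆ insert f (T y) := by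
        intro f hf
        obtain ⟨hf1, Z, hZ, hfZ, hZK⟩ := (hPm f).1 hf
        exact closure_K h J T hTri Z hZ f hfZ (mem_sdiff.1 hf1).2 hZK
      set H1 := H \ P with hH1
      have hKH1 : K ⊆ H1 := by
        intro x hx
        rw [hH1, mem_sdiff]
        refine ⟨hKH hx, fun hxP => ?_⟩
        exact (mem_sdiff.1 ((hPm x).1 hxP).1).2 hx
      have hH1H : H1 ⊆ H := sdiff_subset
      have hcH1 : G.comps H = G.comps H1 := by
        apply comps_closure G H1 H hH1H
        intro f hf
        have hfP : f ∈ P := by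
          rw [hH1, mem_sdiff, mem_sdiff, not_and_not_right] at hf
          exact hf.2 hf.1
        obtain ⟨-, Z, hZ, hfZ, hZK⟩ := (hPm f).1 hfP
        exact ⟨Z, hZ, hfZ, hZK.trans (insert_subset_insert _ hKH1)⟩
      have hH1M : H1 ∩ M = H ∩ M := by
        ext x
        rw [mem_inter, mem_inter, hH1, mem_sdiff]
        constructor
        · rintro ⟨a, b⟩
          exact ⟨a.1, b⟩
        · rintro ⟨a, b⟩
          exact ⟨⟨a, fun hxP => (hPM x hxP).1 b⟩, b⟩
      by_cases hne : (H1 \ K).Nonempty
      · -- the strict inequality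
        have h1 : ∀ e ∈ H1 \ K, G.comps (H1.erase e) = G.comps H1 := by
          intro e he
          rw [mem_sdiff] at he
          rw [← hcH1, ← h0 e (hH1H he.1)]
          symm
          apply comps_closure G (H1.erase e) (H.erase e) (erase_subset_erase _ hH1H)
          intro f hf
          rw [mem_sdiff, mem_erase, mem_erase, not_and] at hf
          have hfP : f ∈ P := by
            have := hf.2 hf.1.1
            rw [hH1, mem_sdiff, not_and_not_right] at this
            exact this hf.1.2
          obtain ⟨-, Z, hZ, hfZ, hZK⟩ := (hPm f).1 hfP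
          refine ⟨Z, hZ, hfZ, hZK.trans (insert_subset_insert _ ?_)⟩
          intro x hx
          rw [mem_erase]
          exact ⟨fun hh => he.2 (hh ▸ hx), hKH1 hx⟩
        have h2 := rank_relative Γ hΓ S M K H1 hKH1 hne (by
          intro Z hZ hZH1 hZne
          obtain ⟨Z', a1, a2, a3, a4⟩ := reduce' h J T hTri Z hZ
          rw [← hK] at a2 a4
          obtain ⟨z, hz⟩ := hZne
          have hzZ' : z ∈ Z' := by
            rw [← a2] at hz
            exact (mem_sdiff.1 hz).1
          have a5 : ∑ x ∈ J, NN M (Z' ∩ T x) ≤ 0 := sum_nonpos a3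
          have a6 : 2 ≤ NN M (Z \ K) := by
            rcases h.two ⟨z, hzZ'⟩ a1 with b1 | ⟨y, hy⟩
            · omega
            · have hyN := hy.NN
              -- `y` is in the system
              have hZ'H1 : Z' ⊆ H := by
                intro x hx
                by_cases hxK : x ∈ K
                · exact hKH hxK
                · have : x ∈ Z' \ K := mem_sdiff.2 ⟨hx, hxK⟩
                  rw [a2] at this
                  exact hH1H (hZH1 (mem_sdiff.1 this).1)
              have hyJ : y ∈ J := (hJm y).2 ⟨mem_inter.2 ⟨hZ'H1 hy.mem.1, hy.mem.2⟩, Z', hy, hZ'H1⟩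
              have hyT := (hTri y hyJ).mem.1
              by_contra hcon
              have b2 : ∑ x ∈ J, NN M (Z' ∩ T x) = 0 := by omega
              have b3 := (sum_eq_zero_iff_of_nonpos a3).1 b2 y hyJ
              have b4 : (Z' ∩ T y) ∩ M = {y} := by
                ext w
                rw [mem_inter, mem_inter, mem_singleton]
                constructor
                · rintro ⟨⟨c1, c2⟩, c3⟩
                  exact hy.eq_of_mem c1 c3
                · rintro rfl
                  exact ⟨⟨hy.mem.1, hyT⟩, hy.mem.2⟩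
              rw [NN_eq, b4, card_singleton] at b3
              have b5 : ((Z' ∩ T y) \ M).card = 1 := by omega
              obtain ⟨c, hc⟩ := card_eq_one.1 b5
              have hcm : c ∈ (Z' ∩ T y) \ M := by rw [hc]; exact mem_singleton_self c
              rw [mem_sdiff, mem_inter] at hcm
              -- `Z' ⊆ insert z K`
              have hzK : z ∉ K := (mem_sdiff.1 hz).2
              have hzM : z ∉ M := by
                intro hzM
                exact hzK (mem_biUnion.2 ⟨y, hyJ, (hy.eq_of_mem hzZ' hzM) ▸ hyT⟩)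
              have hcz : c ≠ z := fun hh => hzK (mem_biUnion.2 ⟨y, hyJ, hh ▸ hcm.1.2⟩)
              have b6 : Z' \ M = {c, z} := by
                symm
                apply eq_of_subset_of_card_le
                · intro x hx
                  rw [mem_insert, mem_singleton] at hx
                  rcases hx with rfl | rfl
                  · exact mem_sdiff.2 ⟨hcm.1.1, hcm.2⟩
                  · exact mem_sdiff.2 ⟨hzZ', hzM⟩
                · rw [hy.card, card_pair hcz]
              have b7 : Z' ⊆ insert z K := by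
                intro x hx
                rw [mem_insert]
                by_cases hxM : x ∈ M
                · right
                  rw [hy.eq_of_mem hx hxM]
                  exact mem_biUnion.2 ⟨y, hyJ, hyT⟩
                · have : x ∈ Z' \ M := mem_sdiff.2 ⟨hx, hxM⟩
                  rw [b6, mem_insert, mem_singleton] at this
                  rcases this with hh | hh
                  · right
                    rw [hh]
                    exact mem_biUnion.2 ⟨y, hyJ, hcm.1.2⟩
                  · exact Or.inl hh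
              have hzZ : z ∈ Z := (mem_sdiff.1 hz).1
              have hzZ1 : z ∈ Z' \ K := mem_sdiff.2 ⟨hzZ', hzK⟩
              rw [a2] at hzZ1
              have hzH1 : z ∈ H1 := hZH1 (mem_sdiff.1 hzZ1).1
              have hzP : z ∈ P := (hPm z).2 ⟨mem_sdiff.2 ⟨hH1H hzH1, hzK⟩, Z', a1, hzZ', b7⟩
              rw [hH1, mem_sdiff] at hzH1
              exact hzH1.2 hzP
          rw [NN_eq] at a6
          omega) h1
        have h3 : (H ∩ M).card = ((H1 \ K) ∩ M).card + J.card := by
          rw [← hH1M, ← hKM, ← card_union_of_disjoint]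
          · congr 1
            ext x
            simp only [mem_inter, mem_union, mem_sdiff]
            constructor
            · rintro ⟨a, b⟩
              by_cases hx : x ∈ K
              · exact Or.inr ⟨hx, b⟩
              · exact Or.inl ⟨⟨a, hx⟩, b⟩
            · rintro (a | a)
              · exact ⟨a.1.1, a.2⟩
              · exact ⟨hKH1 a.1, a.2⟩
          · rw [disjoint_left]
            intro x hx hx'
            exact (mem_sdiff.1 (mem_inter.1 hx).1).2 (mem_inter.1 hx').1
        rw [← hG, ← hcH1] at h2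
        constructor
        · omega
        · intro h4
          omega
      · -- equality
        rw [not_nonempty_iff_eq_empty, sdiff_eq_empty_iff_subset] at hne
        have hH1K : H1 = K := subset_antisymm hne hKH1
        have hJM : J = H ∩ M := by rw [← hKM, ← hH1M, hH1K]
        refine ⟨?_, fun _ => ?_⟩
        · rw [hcH1, hH1K, ← hJM]
          omega
        · refine ⟨T, fun x hx => hT x (hJM ▸ hx), ?_⟩
          intro f hfH hfM
          rw [← hJM]
          by_cases hfP : f ∈ P
          · exact (hPM f hfP).2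
          · have hfK : f ∈ K := by
              rw [← hH1K, hH1, mem_sdiff]
              exact ⟨hfH, hfP⟩
            obtain ⟨y, hy, hfy⟩ := mem_biUnion.1 hfK
            exact ⟨y, hy, T y, hTri y hy, hfy, subset_insert _ _⟩

end Pool.Agent.H756.TD
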