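import Pool.Agent.H756.TD.Tri

set_option autoImplicit false

/-!
Triangular domination for edges which are far apart.
-/

namespace Pool.Agent.H756.TD

open Finset LaurentPolynomial Pool.Agent.H891R2.Jones Pool.Agent.H891R2.MT Pool.Agent.H891R2.DS
open Pool.Agent.N569.OD (Vert vtx ends)

variable {k : ℕ}

/-- The graph `G` has no loops, no edge is parallel to an edge in `R`, and different edges in `R` have a
distance of at least `2`: they have no common end, and no edge joins an end of one of them to an end of the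
other. -/
def FarApart (G : Ribbon k) (R : Finset (Fin k)) : Prop :=
  (∀ e, vtx G (e, false) ≠ vtx G (e, true)) ∧
  (∀ x ∈ R, ∀ e, e ≠ x → ends G e ≠ ends G x) ∧
  ∀ x ∈ R, ∀ y ∈ R, x ≠ y → ∀ u ∈ ends G x, ∀ v ∈ ends G y, u ≠ v ∧ ∀ e, ends G e ≠ s(u, v)

theorem mem_ends (G : Ribbon k) (e : Fin k) (v : Vert G) :
    v ∈ ends G e ↔ vtx G (e, false) = v ∨ vtx G (e, true) = v := by
  unfold ends
  rw [Sym2.mem_iff]
  constructor
  · rintro (h | h)
    · exact Or.inl h.symm
    · exact Or.inr h.symm
  · rintro (h | h)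
    · exact Or.inl h.symm
    · exact Or.inr h.symm

theorem par_of_mem {G : Ribbon k} (hl : ∀ e, vtx G (e, false) ≠ vtx G (e, true)) {e : Fin k}
    {v : Vert G} (h : v ∈ ends G e) : par G e v = 1 := by
  classical
  rw [mem_ends] at h
  unfold par
  rcases h with h | h
  · have : vtx G (e, true) ≠ v := fun hh => hl e (h.trans hh.symm)
    rw [if_pos h, if_neg this, add_zero]
  · have : vtx G (e, false) ≠ v := fun hh => hl e (hh.trans h.symm)
    rw [if_neg this, if_pos h, zero_add]

theorem par_of_not_mem {G : Ribbon k} {e : Fin k} {v : Vert G} (h : v ∉ ends G e) :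
    par G e v = 0 := by
  classical
  rw [mem_ends, not_or] at h
  unfold par
  rw [if_neg h.1, if_neg h.2, add_zero]

/-- in an even set of edges of a graph without loops every edge has a neighbour at each of its ends -/
theorem exists_other {G : Ribbon k} (hl : ∀ e, vtx G (e, false) ≠ vtx G (e, true))
    {X : Finset (Fin k)} (hX : EvenSet G X) {x : Fin k} (hx : x ∈ X) {v : Vert G}
    (hv : v ∈ ends G x) : ∃ e ∈ X, e ≠ x ∧ v ∈ ends G e := by
  classical
  by_contra hcon
  push Not at hcon
  have h1 := (even_iff G X).1 hX v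
  rw [← Finset.add_sum_erase X _ hx, par_of_mem hl hv, Finset.sum_eq_zero, add_zero] at h1
  · exact one_ne_zero h1
  · intro e he
    have he' := Finset.mem_erase.1 he
    exact par_of_not_mem (hcon e he'.2 he'.1)

theorem FarApart.tdom {G : Ribbon k} {R : Finset (Fin k)} (h : FarApart G R) : TDom G R := by
  classical
  obtain ⟨hl, hp, hd⟩ := h
  intro X hne hX
  have hf : ∀ p : Fin k × Bool, p.1 ∈ X → ∃ e ∈ X, e ≠ p.1 ∧ vtx G p ∈ ends G e := by
    rintro ⟨x, b⟩ hx
    refine exists_other hl hX hx ?_
    rw [mem_ends]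
    cases b
    · exact Or.inl rfl
    · exact Or.inr rfl
  by_cases h0 : (X ∩ R).card = 0
  · left
    rw [h0, zero_add]
    have h1 : X ∩ R = ∅ := Finset.card_eq_zero.1 h0
    have h2 : X \ R = X := Finset.sdiff_eq_self_iff_disjoint.2 (Finset.disjoint_iff_inter_eq_empty.2 h1)
    rw [h2]
    obtain ⟨x, hx⟩ := hne
    obtain ⟨e, he, hex, -⟩ := hf (x, false) hx
    exact Finset.one_lt_card.2 ⟨e, he, x, hx, hex⟩
  · haveI : Nonempty (Fin k) := ⟨hne.choose⟩
    choose! f hf1 hf2 hf3 using hf
    have hends : ∀ x : Fin k, ∀ b : Bool, vtx G (x, b) ∈ ends G x := by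
      intro x b
      rw [mem_ends]
      cases b
      · exact Or.inl rfl
      · exact Or.inr rfl
    have hcard : ((X ∩ R) ×ˢ (univ : Finset Bool)).card ≤ (X \ R).card := by
      refine Finset.card_le_card_of_injOn f ?_ ?_
      · rintro ⟨x, b⟩ hx
        have hx' := Finset.mem_product.1 (Finset.mem_coe.1 hx)
        have hxX : x ∈ X := (Finset.mem_inter.1 hx'.1).1
        have hxR : x ∈ R := (Finset.mem_inter.1 hx'.1).2
        refine Finset.mem_coe.2 (Finset.mem_sdiff.2 ⟨hf1 (x, b) hxX, fun hR => ?_⟩)
        exact (hd x hxR _ hR (hf2 (x, b) hxX).symm _ (hends x b) _ (hf3 (x, b) hxX)).1 rfl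
      · rintro ⟨x, b⟩ hx ⟨y, c⟩ hy hxy
        have hx' := Finset.mem_product.1 (Finset.mem_coe.1 hx)
        have hxX : x ∈ X := (Finset.mem_inter.1 hx'.1).1
        have hxR : x ∈ R := (Finset.mem_inter.1 hx'.1).2
        have hy' := Finset.mem_product.1 (Finset.mem_coe.1 hy)
        have hyX : y ∈ X := (Finset.mem_inter.1 hy'.1).1
        have hyR : y ∈ R := (Finset.mem_inter.1 hy'.1).2
        have h3 := hf3 (x, b) hxX
        have h4 := hf3 (y, c) hyX
        rw [← hxy] at h4
        by_cases hxy' : x = y
        · subst hxy'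
          by_cases hbc : b = c
          · rw [hbc]
          · exfalso
            have hne' : vtx G (x, b) ≠ vtx G (x, c) := by
              cases b <;> cases c
              · exact absurd rfl hbc
              · exact hl x
              · exact (hl x).symm
              · exact absurd rfl hbc
            have h5 : ends G (f (x, b)) = s(vtx G (x, b), vtx G (x, c)) :=
              (Sym2.mem_and_mem_iff hne').1 ⟨h3, h4⟩
            have h6 : ends G x = s(vtx G (x, b), vtx G (x, c)) :=
              (Sym2.mem_and_mem_iff hne').1 ⟨hends x b, hends x c⟩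
            exact hp x hxR _ (hf2 (x, b) hxX) (h5.trans h6.symm)
        · exfalso
          obtain ⟨h7, h8⟩ := hd x hxR y hyR hxy' _ (hends x b) _ (hends y c)
          exact h8 _ ((Sym2.mem_and_mem_iff h7).1 ⟨h3, h4⟩)
    rw [Finset.card_product] at hcard
    have h2 : (univ : Finset Bool).card = 2 := rfl
    rw [h2] at hcard
    by_cases h3 : (X \ R).card = 2
    · right
      exact ⟨by omega, h3⟩
    · left
      omega

end Pool.Agent.H756.TD
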