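import Pool.Agent.H756.TD.Local

set_option autoImplicit false

/-!
The product formula for the extreme coefficient.
-/

namespace Pool.Agent.H756.TD

open Finset LaurentPolynomial Pool.Agent.H891R2.Jones Pool.Agent.H891R2.MT Pool.Agent.H891R2.DS
open Pool.Agent.N569.OD (Vert vtx ends coeff_sum')
open Pool.Agent.H891R2.DS.D8 (sum_split)

variable {k : ℕ}

/-- the number of the vertices of `G` which are joined to both ends of the edge `x` by edges outside
`M` -/
noncomputable def kap (G : Ribbon k) (M : Finset (Fin k)) (x : Fin k) : ℕ :=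
  {w : Vert G | (∃ a, a ∉ M ∧ ends G a = s(vtx G (x, false), w)) ∧
    ∃ b, b ∉ M ∧ ends G b = s(vtx G (x, true), w)}.ncard

/-- sums of products over the subsets of a disjoint union -/
theorem sum_prod_biUnion (M : Finset (Fin k)) (U : Fin k → Finset (Fin k))
    (hU : ∀ x ∈ M, ∀ y ∈ M, x ≠ y → Disjoint (U x) (U y)) (c : Fin k → Finset (Fin k) → ℤ) :
    ∑ F ∈ (M.biUnion U).powerset, ∏ x ∈ M, c x (F ∩ U x) =
      ∏ x ∈ M, ∑ Y ∈ (U x).powerset, c x Y := by
  classical
  induction M using Finset.induction_on with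
  | empty => simp
  | insert y M hy ih =>
    have ih' := ih (fun x hx z hz => hU x (mem_insert_of_mem hx) z (mem_insert_of_mem hz))
    have hdis : ∀ x ∈ M, Disjoint (U x) (U y) := fun x hx =>
      hU x (mem_insert_of_mem hx) y (mem_insert_self _ _) (fun hh => hy (hh ▸ hx))
    have hd : Disjoint (M.biUnion U) (U y) := by
      rw [disjoint_biUnion_left]
      exact hdis
    have hsub : U y ⊆ (insert y M).biUnion U := by
      rw [biUnion_insert]
      exact subset_union_left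
    have hsd : (insert y M).biUnion U \ U y = M.biUnion U := by
      rw [biUnion_insert, union_sdiff_left]
      exact sdiff_eq_self_of_disjoint hd
    rw [sum_split _ (U y) hsub, hsd, prod_insert hy, ← ih', mul_comm, sum_mul_sum]
    apply sum_congr rfl
    intro Q hQ
    apply sum_congr rfl
    intro Q' hQ'
    rw [mem_powerset] at hQ hQ'
    rw [prod_insert hy]
    have e1 : (Q ∪ Q') ∩ U y = Q' := by
      ext z
      simp only [mem_inter, mem_union]
      constructor
      · rintro ⟨hz | hz, hzy⟩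
        · exact absurd hzy (disjoint_left.1 hd (hQ hz))
        · exact hz
      · intro hz
        exact ⟨Or.inr hz, hQ' hz⟩
    rw [e1, mul_comm]
    congr 1
    apply prod_congr rfl
    intro x hx
    congr 1
    ext z
    simp only [mem_inter, mem_union]
    constructor
    · rintro ⟨hz | hz, hzx⟩
      · exact ⟨hz, hzx⟩
      · exact absurd (hQ' hz) (disjoint_left.1 (hdis x hx) hzx)
    · rintro ⟨hz, hzx⟩
      exact ⟨Or.inl hz, hzx⟩

theorem sum_nonempty (A : Finset (Fin k)) (hA : A.Nonempty) :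
    ∑ P ∈ A.powerset, (if P = ∅ then (0 : ℤ) else (-1) ^ P.card) = -1 := by
  classical
  have h1 := Finset.sum_powerset_neg_one_pow_card_of_nonempty hA
  rw [← Finset.add_sum_erase _ _ (empty_mem_powerset A)] at h1 ⊢
  rw [card_empty, pow_zero] at h1
  rw [if_pos rfl, zero_add]
  have h2 : ∑ P ∈ A.powerset.erase ∅, (if P = ∅ then (0 : ℤ) else (-1) ^ P.card) =
      ∑ P ∈ A.powerset.erase ∅, (-1 : ℤ) ^ P.card :=
    sum_congr rfl fun P hP => if_neg (mem_erase.1 hP).1
  rw [h2]
  linarith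

/-- the sum over the unions of two nonempty sets -/
theorem sum_two (A B : Finset (Fin k)) (hA : A.Nonempty) (hB : B.Nonempty) (hd : Disjoint A B) :
    ∑ Y ∈ (A ∪ B).powerset.filter (fun Y => (Y ∩ A).Nonempty ∧ (Y ∩ B).Nonempty),
      (-1 : ℤ) ^ (Y.card + 1) = -1 := by
  classical
  rw [sum_filter, sum_split (A ∪ B) B subset_union_right]
  have e0 : (A ∪ B) \ B = A := by
    rw [union_sdiff_right]
    exact sdiff_eq_self_of_disjoint hd
  rw [e0]
  have e1 : ∀ P ∈ A.powerset, ∀ Q ∈ B.powerset,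
      (if ((P ∪ Q) ∩ A).Nonempty ∧ ((P ∪ Q) ∩ B).Nonempty then (-1 : ℤ) ^ ((P ∪ Q).card + 1) else 0) =
      -((if P = ∅ then (0 : ℤ) else (-1) ^ P.card) * (if Q = ∅ then (0 : ℤ) else (-1) ^ Q.card)) := by
    intro P hP Q hQ
    rw [mem_powerset] at hP hQ
    have f1 : (P ∪ Q) ∩ A = P := by
      ext z
      simp only [mem_inter, mem_union]
      constructor
      · rintro ⟨hz | hz, hzA⟩
        · exact hz
        · exact absurd (hQ hz) (disjoint_left.1 hd hzA)
      · intro hz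
        exact ⟨Or.inl hz, hP hz⟩
    have f2 : (P ∪ Q) ∩ B = Q := by
      ext z
      simp only [mem_inter, mem_union]
      constructor
      · rintro ⟨hz | hz, hzB⟩
        · exact absurd hzB (disjoint_left.1 hd (hP hz))
        · exact hz
      · intro hz
        exact ⟨Or.inr hz, hQ hz⟩
    rw [f1, f2]
    by_cases hP0 : P = ∅
    · rw [if_pos hP0, zero_mul, if_neg (fun hh => nonempty_iff_ne_empty.1 hh.1 hP0), neg_zero]
    · by_cases hQ0 : Q = ∅
      · rw [if_pos hQ0, mul_zero, if_neg (fun hh => nonempty_iff_ne_empty.1 hh.2 hQ0), neg_zero]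
      · rw [if_neg hP0, if_neg hQ0, if_pos ⟨nonempty_iff_ne_empty.2 hP0, nonempty_iff_ne_empty.2 hQ0⟩]
        rw [card_union_of_disjoint (hd.mono hP hQ), pow_succ, pow_add]
        ring
  rw [sum_congr rfl fun P hP => sum_congr rfl fun Q hQ => e1 P hP Q hQ]
  simp_rw [sum_neg_distrib]
  rw [← sum_mul_sum, sum_nonempty A hA, sum_nonempty B hB]
  norm_num

open Classical in
/-- the local factor -/
theorem sum_cc {G : Ribbon k} {M : Finset (Fin k)} (h : TDom G M) (x : Fin k) (hx : x ∈ M) :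
    ∑ Y ∈ (UU G M x).powerset, cc G x Y = 1 - kap G M x := by
  set p := vtx G (x, false) with hp
  set q := vtx G (x, true) with hq
  have hpq : p ≠ q := h.no_loop x
  set W : Finset (Vert G) := univ.filter (fun w => (∃ a, a ∉ M ∧ ends G a = s(p, w)) ∧
    ∃ b, b ∉ M ∧ ends G b = s(q, w)) with hW
  have hWm : ∀ w, w ∈ W ↔ (∃ a, a ∉ M ∧ ends G a = s(p, w)) ∧ ∃ b, b ∉ M ∧ ends G b = s(q, w) := by
    intro w
    rw [hW, mem_filter]
    simp
  have hkap : kap G M x = W.card := by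
    unfold kap
    rw [← Set.ncard_coe_finset]
    congr 1
    ext w
    rw [mem_coe, hWm]
    rfl
  set A : Vert G → Finset (Fin k) := fun w => (Mᶜ).filter (fun a => ends G a = s(p, w)) with hA
  set B : Vert G → Finset (Fin k) := fun w => (Mᶜ).filter (fun a => ends G a = s(q, w)) with hB
  have hAm : ∀ w a, a ∈ A w ↔ a ∉ M ∧ ends G a = s(p, w) := by
    intro w a; simp only [hA, mem_filter, mem_compl]
  have hBm : ∀ w a, a ∈ B w ↔ a ∉ M ∧ ends G a = s(q, w) := by
    intro w a; simp only [hB, mem_filter, mem_compl]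
  have hABd : ∀ w, Disjoint (A w) (B w) := by
    intro w
    rw [disjoint_left]
    intro a ha hb
    rw [hAm] at ha
    rw [hBm] at hb
    have h1 := ha.2.symm.trans hb.2
    rw [Sym2.eq_iff] at h1
    rcases h1 with ⟨h1, _⟩ | ⟨h1, h2⟩
    · exact hpq h1
    · exact hpq (h1.trans h2)
  -- the elements of `UU`
  have hUU : ∀ w ∈ W, A w ∪ B w ⊆ UU G M x := by
    intro w hw a ha
    obtain ⟨⟨a0, ha0, ha0'⟩, ⟨b0, hb0, hb0'⟩⟩ := (hWm w).1 hw
    rw [mem_union, hAm, hBm] at ha
    rw [mem_UU]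
    rcases ha with ha | ha
    · exact ⟨ha.1, {x, a, b0}, even_triangle h hx ha.1 hb0 ha.2 hb0', by simp⟩
    · exact ⟨ha.1, {x, a0, a}, even_triangle h hx ha0 ha.1 ha0' ha.2, by simp⟩
  have hfil : (UU G M x).powerset.filter (GoodE G x) =
      W.biUnion (fun w => (A w ∪ B w).powerset.filter
        (fun Y => (Y ∩ A w).Nonempty ∧ (Y ∩ B w).Nonempty)) := by
    ext Y
    simp only [mem_filter, mem_powerset, mem_biUnion]
    constructor
    · rintro ⟨hY, w, ⟨a, ha, ha'⟩, ⟨b, hb, hb'⟩, he⟩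
      have hYM : ∀ e ∈ Y, e ∉ M := fun e he => (mem_UU.1 (hY he)).1
      refine ⟨w, (hWm w).2 ⟨⟨a, hYM a ha, ha'⟩, ⟨b, hYM b hb, hb'⟩⟩, ?_,
        ⟨a, mem_inter.2 ⟨ha, (hAm w a).2 ⟨hYM a ha, ha'⟩⟩⟩,
        ⟨b, mem_inter.2 ⟨hb, (hBm w b).2 ⟨hYM b hb, hb'⟩⟩⟩⟩
      intro e heY
      rw [mem_union, hAm, hBm]
      rcases he e heY with h1 | h1
      · exact Or.inl ⟨hYM e heY, h1⟩
      · exact Or.inr ⟨hYM e heY, h1⟩
    · rintro ⟨w, hw, hY, ⟨a, ha⟩, ⟨b, hb⟩⟩
      rw [mem_inter, hAm] at ha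
      rw [mem_inter, hBm] at hb
      refine ⟨hY.trans (hUU w hw), w, ⟨a, ha.1, ha.2.2⟩, ⟨b, hb.1, hb.2.2⟩, ?_⟩
      intro e he
      have := hY he
      rw [mem_union, hAm, hBm] at this
      rcases this with h1 | h1
      · exact Or.inl h1.2
      · exact Or.inr h1.2
  -- the sum
  have hmem : (∅ : Finset (Fin k)) ∈ (UU G M x).powerset := empty_mem_powerset _
  have h1 : ∑ Y ∈ (UU G M x).powerset, cc G x Y =
      1 + ∑ Y ∈ (UU G M x).powerset.filter (GoodE G x), (-1 : ℤ) ^ (Y.card + 1) := by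
    rw [← Finset.add_sum_erase _ _ hmem]
    have h0 : cc G x ∅ = 1 := by
      unfold cc
      rw [if_pos rfl]
    rw [h0, sum_filter, ← Finset.add_sum_erase _ (fun Y => if GoodE G x Y then (-1 : ℤ) ^ (Y.card + 1)
      else 0) hmem]
    rw [if_neg (fun hh : GoodE G x ∅ => hh.ne_empty rfl), zero_add]
    congr 1
    apply sum_congr rfl
    intro Y hY
    unfold cc
    rw [if_neg (mem_erase.1 hY).1]
  rw [h1, hfil, sum_biUnion]
  · have h2 : ∀ w ∈ W, ∑ Y ∈ (A w ∪ B w).powerset.filter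
        (fun Y => (Y ∩ A w).Nonempty ∧ (Y ∩ B w).Nonempty), (-1 : ℤ) ^ (Y.card + 1) = -1 := by
      intro w hw
      obtain ⟨⟨a0, ha0, ha0'⟩, ⟨b0, hb0, hb0'⟩⟩ := (hWm w).1 hw
      exact sum_two (A w) (B w) ⟨a0, (hAm w a0).2 ⟨ha0, ha0'⟩⟩ ⟨b0, (hBm w b0).2 ⟨hb0, hb0'⟩⟩
        (hABd w)
    rw [sum_congr rfl h2, sum_const, hkap]
    simp
    ring
  · intro w _ w' _ hww
    rw [Function.onFun, disjoint_left]
    intro Y hY hY'
    simp only [mem_filter, mem_powerset] at hY hY'
    obtain ⟨hYs, ⟨a, ha⟩, ⟨b, hb⟩⟩ := hY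
    rw [mem_inter, hAm] at ha
    rw [mem_inter, hBm] at hb
    have hpw := h.ne_of_ends ha.2.2
    have hqw := h.ne_of_ends hb.2.2
    have ha2 := hY'.1 ha.1
    rw [mem_union, hAm, hBm] at ha2
    rcases ha2 with ⟨_, h3⟩ | ⟨_, h3⟩
    · have h4 := ha.2.2.symm.trans h3
      rw [Sym2.eq_iff] at h4
      rcases h4 with ⟨_, h4⟩ | ⟨_, h4⟩
      · exact hww h4
      · exact hpw h4.symm
    · have h4 := ha.2.2.symm.trans h3
      rw [Sym2.eq_iff] at h4
      rcases h4 with ⟨h4, _⟩ | ⟨_, h4⟩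
      · exact hpq h4
      · exact hqw h4.symm

/-- the extreme coefficient of the state sum -/
theorem PP_coeff (Γ : Ribbon k) (hΓ : Γ.Planar) (hk : 0 < k) (S M : Finset (Fin k))
    (h : TDom (stateGraph Γ S) M)
    (hcurv : ∀ X, (stateGraph Γ S).curves X + (stateGraph Γ S).verts =
      X.card + 2 * (stateGraph Γ S).comps X) :
    GE (PP (stateGraph Γ S) M) (4 * M.card - 2 * (stateGraph Γ S).verts + 2) ∧
    (PP (stateGraph Γ S) M).coeff (4 * M.card - 2 * (stateGraph Γ S).verts + 2) =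
      (-1) ^ ((stateGraph Γ S).verts + 1) * ∏ x ∈ M, (1 - (kap (stateGraph Γ S) M x : ℤ)) := by
  classical
  have hdis : ∀ F ∈ (Mᶜ).powerset, Disjoint F M := by
    intro F hF
    rw [mem_powerset] at hF
    rw [disjoint_left]
    exact fun a ha => mem_compl.1 (hF ha)
  have hb := fun F hF => blk_local Γ hΓ hk S M h hcurv F (hdis F hF)
  set G := stateGraph Γ S with hG
  constructor
  · rw [D10.PP_eq]
    exact D10.GE.sum _ _ (fun F hF => (hb F hF).1)
  · rw [D10.PP_eq, coeff_sum']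
    have h1 : ∀ F ∈ (Mᶜ).powerset, (D10.blk G M F).coeff (4 * M.card - 2 * G.verts + 2) =
        (-1) ^ (G.verts + 1) * if F ⊆ M.biUnion (UU G M) then
          ∏ x ∈ M, cc G x (F ∩ UU G M x) else 0 := fun F hF => (hb F hF).2
    rw [sum_congr rfl h1, ← mul_sum, ← sum_filter]
    congr 1
    have h2 : (Mᶜ).powerset.filter (fun F => F ⊆ M.biUnion (UU G M)) =
        (M.biUnion (UU G M)).powerset := by
      ext F
      simp only [mem_filter, mem_powerset]
      constructor
      · exact fun hh => hh.2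
      · intro hh
        refine ⟨fun a ha => ?_, hh⟩
        obtain ⟨x, _, hx⟩ := mem_biUnion.1 (hh ha)
        exact mem_compl.2 (mem_UU.1 hx).1
    rw [h2, sum_prod_biUnion M (UU G M)]
    · exact prod_congr rfl fun x hx => sum_cc h x hx
    · intro x _ y _ hxy
      rw [disjoint_left]
      intro a ha ha'
      exact hxy (UU_disj h ha ha')

end Pool.Agent.H756.TD
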