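import Pool.Agent.H756.TD.Even

set_option autoImplicit false

/-!
Triangular domination: systems of triangles.
-/

namespace Pool.Agent.H756.TD

open Finset LaurentPolynomial Pool.Agent.H891R2.Jones Pool.Agent.H891R2.MT Pool.Agent.H891R2.DS
open Pool.Agent.N569.OD (Vert vtx ends)

variable {k : ℕ}

/-- Every nonempty even subgraph of `G` has at least two more edges outside `M` than in `M`, or
it has exactly one edge in `M` and two edges outside `M`. -/
def TDom (G : Ribbon k) (M : Finset (Fin k)) : Prop :=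
  ∀ X : Finset (Fin k), X.Nonempty → EvenSet G X →
    (X ∩ M).card + 2 ≤ (X \ M).card ∨ ((X ∩ M).card = 1 ∧ (X \ M).card = 2)

/-- the number of the edges of `X` outside `M` minus the number of those in `M` -/
def NN (M X : Finset (Fin k)) : ℤ := ∑ e ∈ X, if e ∈ M then -1 else 1

theorem NN_eq (M X : Finset (Fin k)) : NN M X = (X \ M).card - (X ∩ M).card := by
  unfold NN
  rw [← Finset.sum_inter_add_sum_sdiff X M]
  have h1 : ∑ e ∈ X ∩ M, (if e ∈ M then (-1 : ℤ) else 1) = ∑ e ∈ X ∩ M, (-1 : ℤ) :=
    sum_congr rfl fun e he => if_pos (mem_inter.1 he).2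
  have h2 : ∑ e ∈ X \ M, (if e ∈ M then (-1 : ℤ) else 1) = ∑ e ∈ X \ M, (1 : ℤ) :=
    sum_congr rfl fun e he => if_neg (mem_sdiff.1 he).2
  rw [h1, h2]
  simp
  ring

structure IsTri (G : Ribbon k) (M : Finset (Fin k)) (x : Fin k) (T : Finset (Fin k)) : Prop where
  even : EvenSet G T
  inter : T ∩ M = {x}
  card : (T \ M).card = 2

theorem IsTri.mem {G : Ribbon k} {M : Finset (Fin k)} {x : Fin k} {T : Finset (Fin k)}
    (h : IsTri G M x T) : x ∈ T ∧ x ∈ M := by
  have : x ∈ T ∩ M := by rw [h.inter]; exact mem_singleton_self x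
  exact mem_inter.1 this

theorem IsTri.NN {G : Ribbon k} {M : Finset (Fin k)} {x : Fin k} {T : Finset (Fin k)}
    (h : IsTri G M x T) : NN M T = 1 := by
  rw [NN_eq, h.inter, h.card, card_singleton]; norm_num

theorem IsTri.eq_of_mem {G : Ribbon k} {M : Finset (Fin k)} {x : Fin k} {T : Finset (Fin k)}
    (h : IsTri G M x T) {y : Fin k} (hy : y ∈ T) (hyM : y ∈ M) : y = x := by
  have : y ∈ T ∩ M := mem_inter.2 ⟨hy, hyM⟩
  rw [h.inter] at this
  exact mem_singleton.1 this

theorem TDom.two {G : Ribbon k} {M : Finset (Fin k)} (h : TDom G M) {X : Finset (Fin k)}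
    (hX : X.Nonempty) (hE : EvenSet G X) : 2 ≤ NN M X ∨ ∃ x, IsTri G M x X := by
  rcases h X hX hE with h1 | ⟨h1, h2⟩
  · left
    rw [NN_eq]
    omega
  · right
    obtain ⟨x, hx⟩ := card_eq_one.1 h1
    exact ⟨x, ⟨hE, hx, h2⟩⟩

theorem TDom.one {G : Ribbon k} {M : Finset (Fin k)} (h : TDom G M) {X : Finset (Fin k)}
    (hX : X.Nonempty) (hE : EvenSet G X) : 1 ≤ NN M X := by
  rcases h.two hX hE with h1 | ⟨x, h1⟩
  · omega
  · rw [h1.NN]

/-- the sum over a symmetric difference -/
theorem NN_symmDiff (M X Y : Finset (Fin k)) :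
    NN M (symmDiff X Y) = NN M X + NN M Y - 2 * NN M (X ∩ Y) := by
  have h3 : symmDiff X Y = (X \ Y) ∪ (Y \ X) := rfl
  unfold NN
  rw [h3, sum_union (disjoint_of_subset_right sdiff_subset sdiff_disjoint)]
  rw [← Finset.sum_inter_add_sum_sdiff X Y, ← Finset.sum_inter_add_sum_sdiff Y X, inter_comm Y X]
  ring

theorem tri_disj {G : Ribbon k} {M : Finset (Fin k)} (h : TDom G M) {x y : Fin k}
    {T T' : Finset (Fin k)} (hT : IsTri G M x T) (hT' : IsTri G M y T') (hxy : x ≠ y) :
    Disjoint T T' := by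
  rw [disjoint_left]
  intro a ha ha'
  have haM : a ∉ M := fun hm => hxy ((hT.eq_of_mem ha hm).symm.trans (hT'.eq_of_mem ha' hm))
  have hx : x ∈ symmDiff T T' := by
    rw [mem_symmDiff]
    exact Or.inl ⟨hT.mem.1, fun hx => hxy (hT'.eq_of_mem hx hT.mem.2)⟩
  have h1 := h.two ⟨x, hx⟩ (even_symmDiff hT.even hT'.even)
  -- the intersection has no element of `M`
  have h2 : (T ∩ T') ∩ M = ∅ := by
    rw [eq_empty_iff_forall_notMem]
    intro z hz
    rw [mem_inter, mem_inter] at hz
    exact hxy ((hT.eq_of_mem hz.1.1 hz.2).symm.trans (hT'.eq_of_mem hz.1.2 hz.2))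
  have h3 : 1 ≤ NN M (T ∩ T') := by
    rw [NN_eq, h2, card_empty]
    have : 0 < ((T ∩ T') \ M).card := card_pos.2 ⟨a, mem_sdiff.2 ⟨mem_inter.2 ⟨ha, ha'⟩, haM⟩⟩
    omega
  have h4 := NN_symmDiff M T T'
  rw [hT.NN, hT'.NN] at h4
  have h5 := h.one ⟨x, hx⟩ (even_symmDiff hT.even hT'.even)
  omega

theorem NN_mono_disj (M : Finset (Fin k)) (J : Finset (Fin k)) (T : Fin k → Finset (Fin k))
    (hd : ∀ x ∈ J, ∀ y ∈ J, x ≠ y → Disjoint (T x) (T y)) (Z : Finset (Fin k)) :
    NN M Z = NN M (Z \ J.biUnion T) + ∑ x ∈ J, NN M (Z ∩ T x) := by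
  unfold NN
  rw [← Finset.sum_inter_add_sum_sdiff Z (J.biUnion T)]
  have h1 : Z ∩ J.biUnion T = J.biUnion (fun x => Z ∩ T x) := by
    rw [inter_biUnion]
  rw [h1, sum_biUnion]
  · ring
  · intro x hx y hy hxy
    exact (hd x hx y hy hxy).mono inter_subset_right inter_subset_right

section system

variable {G : Ribbon k} {M : Finset (Fin k)} (h : TDom G M) (J : Finset (Fin k))
  (T : Fin k → Finset (Fin k)) (hT : ∀ x ∈ J, IsTri G M x (T x))

include h hT in
theorem sys_disj : ∀ x ∈ J, ∀ y ∈ J, x ≠ y → Disjoint (T x) (T y) :=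
  fun x hx y hy hxy => tri_disj h (hT x hx) (hT y hy) hxy

include h hT in
/-- reduction with respect to a system of triangles -/
theorem reduce (Z : Finset (Fin k)) (hZ : EvenSet G Z) :
    ∃ Z', EvenSet G Z' ∧ (∀ e, e ∉ J.biUnion T → (e ∈ Z' ↔ e ∈ Z)) ∧
      ∀ x ∈ J, NN M (Z' ∩ T x) ≤ 0 := by
  classical
  have key : ∀ J' ⊆ J, ∃ Z', EvenSet G Z' ∧ (∀ e, e ∉ J'.biUnion T → (e ∈ Z' ↔ e ∈ Z)) ∧
      ∀ x ∈ J', NN M (Z' ∩ T x) ≤ 0 := by
    intro J'
    induction J' using Finset.induction_on with
    | empty => intro _; exact ⟨Z, hZ, fun _ _ => Iff.rfl, fun x hx => absurd hx (notMem_empty _)⟩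
    | insert y J' hy ih =>
      intro hJ
      obtain ⟨Z', h1, h2, h3⟩ := ih (fun a ha => hJ (mem_insert_of_mem ha))
      have hyJ := hJ (mem_insert_self _ _)
      have hTy := hT y hyJ
      by_cases h4 : NN M (Z' ∩ T y) ≤ 0
      · refine ⟨Z', h1, ?_, ?_⟩
        · intro e he
          apply h2 e
          intro hh
          apply he
          rw [biUnion_insert]
          exact mem_union_right _ hh
        · intro x hx
          rcases mem_insert.1 hx with rfl | hx
          · exact h4
          · exact h3 x hx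
      · refine ⟨symmDiff Z' (T y), even_symmDiff h1 hTy.even, ?_, ?_⟩
        · intro e he
          rw [biUnion_insert, mem_union, not_or] at he
          rw [mem_symmDiff, ← h2 e he.2]
          constructor
          · rintro (hh | hh)
            · exact hh.1
            · exact absurd hh.1 he.1
          · intro hh
            exact Or.inl ⟨hh, he.1⟩
        · intro x hx
          rcases mem_insert.1 hx with rfl | hx
          · have e1 : symmDiff Z' (T x) ∩ T x = T x \ Z' := by
              ext z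
              simp only [mem_inter, mem_symmDiff, mem_sdiff]
              tauto
            rw [e1]
            have e2 : NN M (T x \ Z') + NN M (Z' ∩ T x) = 1 := by
              rw [← hTy.NN]
              unfold NN
              rw [← Finset.sum_inter_add_sum_sdiff (T x) Z', inter_comm]
              ring
            omega
          · have hxy : x ≠ y := fun hh => hy (hh ▸ hx)
            have hd := tri_disj h (hT x (hJ (mem_insert_of_mem hx))) hTy hxy
            have e1 : symmDiff Z' (T y) ∩ T x = Z' ∩ T x := by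
              ext z
              simp only [mem_inter, mem_symmDiff]
              constructor
              · rintro ⟨hh | hh, hz⟩
                · exact ⟨hh.1, hz⟩
                · exact absurd hh.1 (disjoint_left.1 hd hz)
              · rintro ⟨hh, hz⟩
                exact ⟨Or.inl ⟨hh, disjoint_left.1 hd hz⟩, hz⟩
            rw [e1]
            exact h3 x hx
  exact key J subset_rfl

include h hT in
theorem reduce' (Z : Finset (Fin k)) (hZ : EvenSet G Z) :
    ∃ Z', EvenSet G Z' ∧ Z' \ J.biUnion T = Z \ J.biUnion T ∧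
      (∀ x ∈ J, NN M (Z' ∩ T x) ≤ 0) ∧
      NN M (Z \ J.biUnion T) = NN M Z' - ∑ x ∈ J, NN M (Z' ∩ T x) := by
  obtain ⟨Z', h1, h2, h3⟩ := reduce h J T hT Z hZ
  have e1 : Z' \ J.biUnion T = Z \ J.biUnion T := by
    ext e
    simp only [mem_sdiff]
    constructor
    · rintro ⟨a, b⟩
      exact ⟨(h2 e b).1 a, b⟩
    · rintro ⟨a, b⟩
      exact ⟨(h2 e b).2 a, b⟩
  refine ⟨Z', h1, e1, h3, ?_⟩
  rw [← e1, NN_mono_disj M J T (sys_disj h J T hT) Z']
  ring

include h hT in
/-- the closure of a system of triangles -/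
theorem closure_K (Z : Finset (Fin k)) (hZ : EvenSet G Z) (f : Fin k) (hf : f ∈ Z)
    (hfK : f ∉ J.biUnion T) (hZK : Z ⊆ insert f (J.biUnion T)) :
    f ∉ M ∧ ∃ y ∈ J, ∃ Z', IsTri G M y Z' ∧ f ∈ Z' ∧ Z' ⊆ insert f (T y) := by
  classical
  obtain ⟨Z', h1, h2, h3, h4⟩ := reduce' h J T hT Z hZ
  have e1 : Z \ J.biUnion T = {f} := by
    ext e
    rw [mem_sdiff, mem_singleton]
    constructor
    · rintro ⟨a, b⟩
      exact (mem_insert.1 (hZK a)).resolve_right b
    · rintro rfl
      exact ⟨hf, hfK⟩
  rw [e1] at h2 h4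
  have hfZ' : f ∈ Z' := by
    have : f ∈ Z' \ J.biUnion T := by rw [h2]; exact mem_singleton_self f
    exact (mem_sdiff.1 this).1
  have h5 : ∑ x ∈ J, NN M (Z' ∩ T x) ≤ 0 := sum_nonpos h3
  have h6 : NN M {f} = if f ∈ M then -1 else 1 := by unfold NN; rw [sum_singleton]
  have h7 := h.one ⟨f, hfZ'⟩ h1
  have hfM : f ∉ M := by
    intro hm
    rw [if_pos hm] at h6
    omega
  rw [if_neg hfM] at h6
  refine ⟨hfM, ?_⟩
  rcases h.two ⟨f, hfZ'⟩ h1 with h8 | ⟨y, hy⟩
  · omega
  have hyN := hy.NN
  have h9 : ∑ x ∈ J, NN M (Z' ∩ T x) = 0 := by omega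
  have h10 := (sum_eq_zero_iff_of_nonpos h3).1 h9
  -- `y` lies in the system
  have hyf : y ≠ f := fun hh => hfM (hh ▸ hy.mem.2)
  have hyK : y ∈ J.biUnion T := by
    by_contra hcon
    have : y ∈ Z' \ J.biUnion T := mem_sdiff.2 ⟨hy.mem.1, hcon⟩
    rw [h2, mem_singleton] at this
    exact hyf this
  obtain ⟨x, hx, hyx⟩ := mem_biUnion.1 hyK
  have hxy := (hT x hx).eq_of_mem hyx hy.mem.2
  subst hxy
  refine ⟨y, hx, Z', hy, hfZ', ?_⟩
  have h11 := h10 y hx
  have h12 : (Z' ∩ T y) ∩ M = {y} := by
    ext z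
    rw [mem_inter, mem_inter, mem_singleton]
    constructor
    · rintro ⟨⟨a, b⟩, c⟩
      exact hy.eq_of_mem a c
    · rintro rfl
      exact ⟨⟨hy.mem.1, hyx⟩, hy.mem.2⟩
  rw [NN_eq, h12, card_singleton] at h11
  have hfTy : f ∉ T y := fun hh => hfK (mem_biUnion.2 ⟨y, hx, hh⟩)
  have h13 : (Z' ∩ T y) \ M ⊆ (Z' \ M).erase f := by
    intro z hz
    rw [mem_sdiff, mem_inter] at hz
    rw [mem_erase, mem_sdiff]
    exact ⟨fun hh => hfTy (hh ▸ hz.1.2), hz.1.1, hz.2⟩
  have h14 : ((Z' \ M).erase f).card = 1 := by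
    rw [card_erase_of_mem (mem_sdiff.2 ⟨hfZ', hfM⟩), hy.card]
  have h15 : (Z' ∩ T y) \ M = (Z' \ M).erase f := eq_of_subset_of_card_le h13 (by omega)
  intro g hg
  rw [mem_insert]
  by_cases hgf : g = f
  · exact Or.inl hgf
  right
  by_cases hgM : g ∈ M
  · rw [hy.eq_of_mem hg hgM]
    exact hyx
  · have : g ∈ (Z' ∩ T y) \ M := by
      rw [h15, mem_erase, mem_sdiff]
      exact ⟨hgf, hg, hgM⟩
    exact (mem_inter.1 (mem_sdiff.1 this).1).2

end system

/-- the rank of a system of triangles -/
theorem rank_K {G : Ribbon k} {M : Finset (Fin k)} (h : TDom G M)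
    (T : Fin k → Finset (Fin k)) (J : Finset (Fin k)) (hT : ∀ x ∈ J, IsTri G M x (T x)) :
    G.comps (J.biUnion T) + 2 * J.card = G.verts := by
  classical
  induction J using Finset.induction_on with
  | empty =>
    rw [biUnion_empty, card_empty, Pool.Agent.N569.OD.vcomps_empty, Nat.mul_zero, Nat.add_zero]
  | insert y J hy ih =>
    have hTJ : ∀ x ∈ J, IsTri G M x (T x) := fun x hx => hT x (mem_insert_of_mem hx)
    have hTy := hT y (mem_insert_self _ _)
    have h0 := ih hTJ
    set K := J.biUnion T with hK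
    obtain ⟨a, b, hab, hTab⟩ := card_eq_two.1 hTy.card
    have ha : a ∈ T y \ M := by rw [hTab]; simp
    have hb : b ∈ T y \ M := by rw [hTab]; simp
    rw [mem_sdiff] at ha hb
    have hdis : Disjoint (T y) K := by
      rw [hK, disjoint_biUnion_right]
      intro x hx
      exact tri_disj h hTy (hTJ x hx) (fun hh => hy (hh ▸ hx))
    have haK : a ∉ K := disjoint_left.1 hdis ha.1
    have hbK : b ∉ K := disjoint_left.1 hdis hb.1
    have hyK : y ∉ K := disjoint_left.1 hdis hTy.mem.1
    -- no element of `T y \ M` is in the closure of `K`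
    have hcl : ∀ c ∈ T y, c ∉ K → ¬ ∃ Z, EvenSet G Z ∧ c ∈ Z ∧ Z ⊆ insert c K := by
      rintro c hc hcK ⟨Z, hZ, hcZ, hZK⟩
      obtain ⟨hcM, z, hz, Z', hZ', hcZ', -⟩ := closure_K h J T hTJ Z hZ c hcZ hcK hZK
      have hzy : z ≠ y := fun hh => hy (hh ▸ hz)
      exact disjoint_left.1 (tri_disj h hZ' hTy hzy) hcZ' hc
    have h1 : G.comps K = G.comps (insert a K) + 1 := by
      rcases T3a.comps_insert G K a with ⟨_, h1⟩ | ⟨_, h1⟩
      · exact absurd (exists_even G K a haK h1) (hcl a ha.1 haK)
      · exact h1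
    have hba : b ∉ insert a K := by
      rw [mem_insert, not_or]
      exact ⟨fun hh => hab hh.symm, hbK⟩
    have h2 : G.comps (insert a K) = G.comps (insert b (insert a K)) + 1 := by
      rcases T3a.comps_insert G (insert a K) b with ⟨_, h2⟩ | ⟨_, h2⟩
      · exfalso
        obtain ⟨Z, hZ, hbZ, hZK⟩ := exists_even G (insert a K) b hba h2
        by_cases haZ : a ∈ Z
        · -- exchange
          apply hcl y hTy.mem.1 hyK
          have hyZ : y ∉ Z := by
            intro hyZ
            have := hZK hyZ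
            rw [mem_insert, mem_insert] at this
            rcases this with hh | hh | hh
            · exact hb.2 (hh ▸ hTy.mem.2)
            · exact ha.2 (hh ▸ hTy.mem.2)
            · exact hyK hh
          refine ⟨symmDiff Z (T y), even_symmDiff hZ hTy.even, ?_, ?_⟩
          · rw [mem_symmDiff]
            exact Or.inr ⟨hTy.mem.1, hyZ⟩
          · intro z hz
            rw [mem_symmDiff] at hz
            rw [mem_insert]
            rcases hz with hz | hz
            · have := hZK hz.1
              rw [mem_insert, mem_insert] at this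
              rcases this with hh | hh | hh
              · exact absurd (hh ▸ hb.1) hz.2
              · exact absurd (hh ▸ ha.1) hz.2
              · exact Or.inr hh
            · by_cases hzM : z ∈ M
              · exact Or.inl (hTy.eq_of_mem hz.1 hzM)
              · have : z ∈ T y \ M := mem_sdiff.2 ⟨hz.1, hzM⟩
                rw [hTab, mem_insert, mem_singleton] at this
                rcases this with hh | hh
                · exact absurd (hh ▸ haZ) hz.2
                · exact absurd (hh ▸ hbZ) hz.2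
        · apply hcl b hb.1 hbK
          refine ⟨Z, hZ, hbZ, ?_⟩
          intro z hz
          have := hZK hz
          rw [mem_insert, mem_insert] at this
          rw [mem_insert]
          rcases this with hh | hh | hh
          · exact Or.inl hh
          · exact absurd (hh ▸ hz) haZ
          · exact Or.inr hh
      · exact h2
    have h3 : (insert y J).biUnion T = insert y (insert b (insert a K)) := by
      rw [biUnion_insert]
      ext z
      rw [mem_union, mem_insert, mem_insert, mem_insert]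
      constructor
      · rintro (hz | hz)
        · by_cases hzM : z ∈ M
          · exact Or.inl (hTy.eq_of_mem hz hzM)
          · have : z ∈ T y \ M := mem_sdiff.2 ⟨hz, hzM⟩
            rw [hTab, mem_insert, mem_singleton] at this
            tauto
        · exact Or.inr (Or.inr (Or.inr hz))
      · rintro (rfl | rfl | rfl | hz)
        · exact Or.inl hTy.mem.1
        · exact Or.inl hb.1
        · exact Or.inl ha.1
        · exact Or.inr hz
    have h4 : G.comps (insert y (insert b (insert a K))) = G.comps (insert b (insert a K)) := by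
      apply comps_insert_even G (T y) hTy.even y hTy.mem.1
      intro z hz
      rw [mem_erase] at hz
      have hzM : z ∉ M := fun hh => hz.1 (hTy.eq_of_mem hz.2 hh)
      have : z ∈ T y \ M := mem_sdiff.2 ⟨hz.2, hzM⟩
      rw [hTab, mem_insert, mem_singleton] at this
      rw [mem_insert, mem_insert]
      tauto
    rw [h3, h4, card_insert_of_notMem hy]
    omega

end Pool.Agent.H756.TD
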